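import Mathlib
set_option autoImplicit false

/-! Quadratic expressions in an integral operator with bounded kernel: expansion, majorisation and
the Cauchy-Schwarz inequality. -/

namespace Pool.Agent.N248.SD

open MeasureTheory Complex Set
open scoped ENNReal ComplexConjugate

section M

variable {Ω X : Type*} [MeasurableSpace Ω] [MeasurableSpace X]

/-- the kernel of the quadratic form -/
noncomputable def Mk (ν : Measure Ω) (c : Ω → X → ℂ) (z : X × X) : ℂ :=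
  ∫ ω, c ω z.1 * conj (c ω z.2) ∂ν

/-- the operator -/
noncomputable def Tk (μ : Measure X) (c : Ω → X → ℂ) (φ : X → ℂ) (ω : Ω) : ℂ :=
  ∫ x, c ω x * φ x ∂μ

variable (ν : Measure Ω) (μ : Measure X) [IsFiniteMeasure ν] [SFinite μ]
  (c : Ω → X → ℂ) (φ : X → ℂ)

theorem Tk_meas (hc : Measurable (Function.uncurry c)) (hφ : Integrable φ μ) :
    AEStronglyMeasurable (Tk μ c φ) ν := by
  have h : AEStronglyMeasurable (fun p : Ω × X => c p.1 p.2 * φ p.2) (ν.prod μ) :=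
    hc.aestronglyMeasurable.mul hφ.aestronglyMeasurable.comp_snd
  exact h.integral_prod_right'

omit [SFinite μ] in
theorem Tk_bound (hc1 : ∀ ω x, ‖c ω x‖ ≤ 1) (hφ : Integrable φ μ) (ω : Ω) :
    ‖Tk μ c φ ω‖ ≤ ∫ x, ‖φ x‖ ∂μ := by
  unfold Tk
  refine (norm_integral_le_integral_norm _).trans ?_
  refine integral_mono_of_nonneg (Filter.Eventually.of_forall fun x => norm_nonneg _) hφ.norm
    (Filter.Eventually.of_forall fun x => ?_)
  show ‖c ω x * φ x‖ ≤ ‖φ x‖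
  rw [norm_mul]
  exact mul_le_of_le_one_left (norm_nonneg _) (hc1 ω x)

theorem Tk_int (hc : Measurable (Function.uncurry c)) (hc1 : ∀ ω x, ‖c ω x‖ ≤ 1)
    (hφ : Integrable φ μ) : Integrable (fun ω => ‖Tk μ c φ ω‖ ^ 2) ν := by
  refine Integrable.of_bound ((Tk_meas ν μ c φ hc hφ).norm.pow 2) ((∫ x, ‖φ x‖ ∂μ) ^ 2)
    (Filter.Eventually.of_forall fun ω => ?_)
  rw [Real.norm_of_nonneg (by positivity)]
  exact pow_le_pow_left₀ (norm_nonneg _) (Tk_bound μ c φ hc1 hφ ω) 2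

theorem ident (hc : Measurable (Function.uncurry c)) (hc1 : ∀ ω x, ‖c ω x‖ ≤ 1)
    (hφ : Integrable φ μ) :
    ((∫ ω, ‖Tk μ c φ ω‖ ^ 2 ∂ν : ℝ) : ℂ) =
      ∫ z : X × X, (φ z.1 * conj (φ z.2)) * Mk ν c z ∂(μ.prod μ) := by
  have hφc : Integrable (fun x => conj (φ x)) μ :=
    (Complex.conjLIE.toContinuousLinearEquiv.integrable_comp_iff).2 hφ
  have hgg : Integrable (fun z : X × X => φ z.1 * conj (φ z.2)) (μ.prod μ) := hφ.mul_prod hφc
  have hprod : Integrable (fun p : Ω × (X × X) => (1 : ℂ) * (φ p.2.1 * conj (φ p.2.2)))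
      (ν.prod (μ.prod μ)) := (integrable_const (1 : ℂ)).mul_prod hgg
  have hcm : Measurable fun p : Ω × (X × X) => c p.1 p.2.1 * conj (c p.1 p.2.2) := by
    refine Measurable.mul ?_ ?_
    · exact hc.comp (measurable_fst.prodMk (measurable_fst.comp measurable_snd))
    · exact Complex.continuous_conj.measurable.comp
        (hc.comp (measurable_fst.prodMk (measurable_snd.comp measurable_snd)))
  have hint : Integrable (fun p : Ω × (X × X) =>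
      (c p.1 p.2.1 * conj (c p.1 p.2.2)) * (φ p.2.1 * conj (φ p.2.2)))
      (ν.prod (μ.prod μ)) := by
    have h1 := hprod.bdd_mul (c := 1) hcm.aestronglyMeasurable
      (Filter.Eventually.of_forall fun p => by
        rw [norm_mul, Complex.norm_conj]
        exact mul_le_one₀ (hc1 _ _) (norm_nonneg _) (hc1 _ _))
    refine h1.congr (Filter.Eventually.of_forall fun p => ?_)
    simp only [one_mul]
  have hsq : ∀ ω, ((‖Tk μ c φ ω‖ ^ 2 : ℝ) : ℂ) = ∫ z : X × X,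
      (c ω z.1 * conj (c ω z.2)) * (φ z.1 * conj (φ z.2)) ∂(μ.prod μ) := by
    intro ω
    have e0 : ((‖Tk μ c φ ω‖ ^ 2 : ℝ) : ℂ) = Tk μ c φ ω * conj (Tk μ c φ ω) := by
      rw [Complex.mul_conj, Complex.normSq_eq_norm_sq]
    have e1 : conj (Tk μ c φ ω) = ∫ y, conj (c ω y * φ y) ∂μ := by
      unfold Tk
      rw [← integral_conj]
    rw [e0, e1]
    unfold Tk
    rw [← integral_prod_mul]
    refine integral_congr_ae (Filter.Eventually.of_forall fun z => ?_)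
    simp only
    rw [map_mul]
    ring
  rw [← integral_complex_ofReal]
  simp_rw [hsq]
  rw [integral_integral_swap hint]
  refine integral_congr_ae (Filter.Eventually.of_forall fun z => ?_)
  simp only
  unfold Mk
  rw [← integral_const_mul]
  refine integral_congr_ae (Filter.Eventually.of_forall fun ω => ?_)
  simp only
  ring

theorem lint_eq (hc : Measurable (Function.uncurry c)) (hc1 : ∀ ω x, ‖c ω x‖ ≤ 1)
    (hφ : Integrable φ μ) :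
    ∫⁻ ω, ‖Tk μ c φ ω‖ₑ ^ 2 ∂ν = ENNReal.ofReal (∫ ω, ‖Tk μ c φ ω‖ ^ 2 ∂ν) := by
  rw [ofReal_integral_eq_lintegral_ofReal (Tk_int ν μ c φ hc hc1 hφ)
    (Filter.Eventually.of_forall fun t => by positivity)]
  refine lintegral_congr fun t => ?_
  rw [ENNReal.ofReal_pow (norm_nonneg _), ofReal_norm]

theorem upper (hc : Measurable (Function.uncurry c)) (hc1 : ∀ ω x, ‖c ω x‖ ≤ 1)
    (hφ : Integrable φ μ) :
    ∫⁻ ω, ‖Tk μ c φ ω‖ₑ ^ 2 ∂ν ≤
      ∫⁻ z : X × X, ‖φ z.1‖ₑ * ‖φ z.2‖ₑ * ‖Mk ν c z‖ₑ ∂(μ.prod μ) := by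
  rw [lint_eq ν μ c φ hc hc1 hφ]
  have h0 : 0 ≤ ∫ ω, ‖Tk μ c φ ω‖ ^ 2 ∂ν := integral_nonneg fun t => by positivity
  have h1 : ENNReal.ofReal (∫ ω, ‖Tk μ c φ ω‖ ^ 2 ∂ν) =
      ‖((∫ ω, ‖Tk μ c φ ω‖ ^ 2 ∂ν : ℝ) : ℂ)‖ₑ := by
    rw [← ofReal_norm, Complex.norm_real, Real.norm_of_nonneg h0]
  rw [h1, ident ν μ c φ hc hc1 hφ]
  refine (enorm_integral_le_lintegral_enorm _).trans (le_of_eq ?_)
  refine lintegral_congr fun z => ?_
  rw [enorm_mul, enorm_mul]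
  congr 2
  rw [← ofReal_norm, Complex.norm_conj, ofReal_norm]

theorem Mk_meas (hc : Measurable (Function.uncurry c)) : StronglyMeasurable (Mk ν c) := by
  have hcm : Measurable fun p : (X × X) × Ω => c p.2 p.1.1 * conj (c p.2 p.1.2) := by
    refine Measurable.mul ?_ ?_
    · exact hc.comp (measurable_snd.prodMk (measurable_fst.comp measurable_fst))
    · exact Complex.continuous_conj.measurable.comp
        (hc.comp (measurable_snd.prodMk (measurable_snd.comp measurable_fst)))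
  exact hcm.stronglyMeasurable.integral_prod_right'

theorem Mk_bound (hc1 : ∀ ω x, ‖c ω x‖ ≤ 1) (z : X × X) : ‖Mk ν c z‖ ≤ ν.real univ := by
  unfold Mk
  refine (norm_integral_le_of_norm_le_const (C := 1) (Filter.Eventually.of_forall fun ω => ?_)).trans
    (le_of_eq (one_mul _))
  rw [norm_mul, Complex.norm_conj]
  exact mul_le_one₀ (hc1 _ _) (norm_nonneg _) (hc1 _ _)

/-- equality for nonnegative densities and nonnegative kernels -/
theorem equal (hc : Measurable (Function.uncurry c)) (hc1 : ∀ ω x, ‖c ω x‖ ≤ 1)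
    (G : X → ℝ) (hG : Integrable G μ) (hG0 : ∀ x, 0 ≤ G x) (K : X × X → ℝ) (hK0 : ∀ z, 0 ≤ K z)
    (hK : ∀ z, Mk ν c z = (K z : ℂ)) :
    ∫⁻ z : X × X, ENNReal.ofReal (G z.1) * ENNReal.ofReal (G z.2) * ENNReal.ofReal (K z)
      ∂(μ.prod μ) = ∫⁻ ω, ‖Tk μ c (fun x => (G x : ℂ)) ω‖ₑ ^ 2 ∂ν := by
  have hGc : Integrable (fun x => (G x : ℂ)) μ := hG.ofReal
  rw [lint_eq ν μ c _ hc hc1 hGc]
  have h2 := ident ν μ c _ hc hc1 hGc
  have h3 : ∀ z : X × X, ((G z.1 : ℂ) * conj (G z.2 : ℂ)) * Mk ν c z =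
      ((G z.1 * G z.2 * K z : ℝ) : ℂ) := by
    intro z
    rw [hK, Complex.conj_ofReal]
    push_cast
    ring
  simp_rw [h3] at h2
  rw [integral_complex_ofReal] at h2
  have h4 := Complex.ofReal_injective h2
  rw [h4]
  have hKm : StronglyMeasurable K := by
    have h5 : K = fun z => (Mk ν c z).re := by
      ext z; rw [hK, Complex.ofReal_re]
    rw [h5]
    exact Complex.continuous_re.comp_stronglyMeasurable (Mk_meas ν c hc)
  have hKb : ∀ z, ‖K z‖ ≤ ν.real univ := by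
    intro z
    have := Mk_bound ν c hc1 z
    rwa [hK, Complex.norm_real] at this
  have hint : Integrable (fun z : X × X => G z.1 * G z.2 * K z) (μ.prod μ) := by
    have h5 := (hG.mul_prod hG).bdd_mul (c := ν.real univ) hKm.aestronglyMeasurable
      (Filter.Eventually.of_forall hKb)
    refine h5.congr (Filter.Eventually.of_forall fun z => ?_)
    simp only
    ring
  rw [ofReal_integral_eq_lintegral_ofReal hint (Filter.Eventually.of_forall fun z =>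
    mul_nonneg (mul_nonneg (hG0 _) (hG0 _)) (hK0 _))]
  refine lintegral_congr fun z => ?_
  rw [ENNReal.ofReal_mul (mul_nonneg (hG0 _) (hG0 _)), ENNReal.ofReal_mul (hG0 _)]

end M

/-- majorisation and Cauchy-Schwarz -/
theorem schwarz {Ω₀ Ω₁ Ω₂ X : Type*} [MeasurableSpace Ω₀] [MeasurableSpace Ω₁]
    [MeasurableSpace Ω₂] [MeasurableSpace X] (μ : Measure X) [SFinite μ]
    (ν₀ : Measure Ω₀) (ν₁ : Measure Ω₁) (ν₂ : Measure Ω₂)
    [IsFiniteMeasure ν₀] [IsFiniteMeasure ν₁] [IsFiniteMeasure ν₂]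
    (c₀ : Ω₀ → X → ℂ) (c₁ : Ω₁ → X → ℂ) (c₂ : Ω₂ → X → ℂ)
    (h₀ : Measurable (Function.uncurry c₀)) (h₁ : Measurable (Function.uncurry c₁))
    (h₂ : Measurable (Function.uncurry c₂)) (b₀ : ∀ ω x, ‖c₀ ω x‖ ≤ 1)
    (b₁ : ∀ ω x, ‖c₁ ω x‖ ≤ 1) (b₂ : ∀ ω x, ‖c₂ ω x‖ ≤ 1)
    (K₁ K₂ : X × X → ℝ) (k₁ : ∀ z, 0 ≤ K₁ z) (k₂ : ∀ z, 0 ≤ K₂ z)
    (e₁ : ∀ z, Mk ν₁ c₁ z = (K₁ z : ℂ)) (e₂ : ∀ z, Mk ν₂ c₂ z = (K₂ z : ℂ))
    (e₀ : ∀ z, ‖Mk ν₀ c₀ z‖ ^ 2 ≤ K₁ z * K₂ z)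
    (φ : X → ℂ) (hφ : Integrable φ μ) (G : X → ℝ) (hG : Integrable G μ) (hG0 : ∀ x, 0 ≤ G x)
    (hφG : ∀ᵐ x ∂μ, ‖φ x‖ ≤ G x) :
    (∫⁻ ω, ‖Tk μ c₀ φ ω‖ₑ ^ 2 ∂ν₀) ^ 2 ≤
      (∫⁻ ω, ‖Tk μ c₁ (fun x => (G x : ℂ)) ω‖ₑ ^ 2 ∂ν₁) *
        ∫⁻ ω, ‖Tk μ c₂ (fun x => (G x : ℂ)) ω‖ₑ ^ 2 ∂ν₂ := by
  rw [← equal ν₁ μ c₁ h₁ b₁ G hG hG0 K₁ k₁ e₁, ← equal ν₂ μ c₂ h₂ b₂ G hG hG0 K₂ k₂ e₂]
  have hm : ∀ (K : X × X → ℝ), AEMeasurable K (μ.prod μ) → AEMeasurable (fun z : X × X =>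
      (ENNReal.ofReal (G z.1) * ENNReal.ofReal (G z.2) * ENNReal.ofReal (K z)) ^ (1 / 2 : ℝ))
      (μ.prod μ) := by
    intro K hK
    refine AEMeasurable.pow_const ?_ _
    refine ((hG.aestronglyMeasurable.comp_fst.aemeasurable.ennreal_ofReal).mul
      hG.aestronglyMeasurable.comp_snd.aemeasurable.ennreal_ofReal).mul hK.ennreal_ofReal
  have m₁ := hm K₁ (by
    have h5 : K₁ = fun z => (Mk ν₁ c₁ z).re := by
      ext z; rw [e₁, Complex.ofReal_re]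
    rw [h5]
    exact (Complex.continuous_re.comp_stronglyMeasurable (Mk_meas ν₁ c₁ h₁)).measurable.aemeasurable)
  have m₂ := hm K₂ (by
    have h5 : K₂ = fun z => (Mk ν₂ c₂ z).re := by
      ext z; rw [e₂, Complex.ofReal_re]
    rw [h5]
    exact (Complex.continuous_re.comp_stronglyMeasurable (Mk_meas ν₂ c₂ h₂)).measurable.aemeasurable)
  have hcs := ENNReal.lintegral_mul_le_Lp_mul_Lq (μ.prod μ) Real.HolderConjugate.two_two m₁ m₂
  have h6 : ∫⁻ ω, ‖Tk μ c₀ φ ω‖ₑ ^ 2 ∂ν₀ ≤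
      ∫⁻ z : X × X, ((fun z : X × X =>
      (ENNReal.ofReal (G z.1) * ENNReal.ofReal (G z.2) * ENNReal.ofReal (K₁ z)) ^ (1 / 2 : ℝ)) *
      fun z : X × X =>
      (ENNReal.ofReal (G z.1) * ENNReal.ofReal (G z.2) * ENNReal.ofReal (K₂ z)) ^ (1 / 2 : ℝ)) z
      ∂(μ.prod μ) := by
    refine (upper ν₀ μ c₀ φ h₀ b₀ hφ).trans ?_
    have hae : ∀ᵐ z : X × X ∂(μ.prod μ), ‖φ z.1‖ ≤ G z.1 ∧ ‖φ z.2‖ ≤ G z.2 := by
      have a1 : ∀ᵐ z : X × X ∂(μ.prod μ), ‖φ z.1‖ ≤ G z.1 :=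
        Measure.quasiMeasurePreserving_fst.ae hφG
      have a2 : ∀ᵐ z : X × X ∂(μ.prod μ), ‖φ z.2‖ ≤ G z.2 :=
        Measure.quasiMeasurePreserving_snd.ae hφG
      filter_upwards [a1, a2] with z h1 h2 using ⟨h1, h2⟩
    refine lintegral_mono_ae ?_
    filter_upwards [hae] with z hz
    obtain ⟨z1, z2⟩ := hz
    have q1 : ‖φ z.1‖ₑ ≤ ENNReal.ofReal (G z.1) := by
      rw [← ofReal_norm]; exact ENNReal.ofReal_le_ofReal z1
    have q2 : ‖φ z.2‖ₑ ≤ ENNReal.ofReal (G z.2) := by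
      rw [← ofReal_norm]; exact ENNReal.ofReal_le_ofReal z2
    have q3 : ‖Mk ν₀ c₀ z‖ₑ ≤ (ENNReal.ofReal (K₁ z) * ENNReal.ofReal (K₂ z)) ^ (1 / 2 : ℝ) := by
      rw [← ENNReal.ofReal_mul (k₁ z), ENNReal.ofReal_rpow_of_nonneg (mul_nonneg (k₁ z) (k₂ z))
        (by norm_num), ← ofReal_norm]
      refine ENNReal.ofReal_le_ofReal ?_
      rw [← Real.sqrt_eq_rpow]
      exact Real.le_sqrt_of_sq_le (e₀ z)
    rw [Pi.mul_apply, ← ENNReal.mul_rpow_of_nonneg _ _ (by norm_num : (0 : ℝ) ≤ 1 / 2)]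
    have q4 : (ENNReal.ofReal (G z.1) * ENNReal.ofReal (G z.2) * ENNReal.ofReal (K₁ z)) *
        (ENNReal.ofReal (G z.1) * ENNReal.ofReal (G z.2) * ENNReal.ofReal (K₂ z)) =
        (ENNReal.ofReal (G z.1) * ENNReal.ofReal (G z.2)) ^ (2 : ℝ) *
          (ENNReal.ofReal (K₁ z) * ENNReal.ofReal (K₂ z)) := by
      rw [ENNReal.rpow_two]; ring
    rw [q4, ENNReal.mul_rpow_of_nonneg _ _ (by norm_num : (0 : ℝ) ≤ 1 / 2), ← ENNReal.rpow_mul]
    norm_num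
    exact mul_le_mul' (mul_le_mul' q1 q2) (by norm_num at q3; exact q3)
  have h7 := h6.trans hcs
  have h8 : ∀ t : ℝ≥0∞, (t ^ (1 / 2 : ℝ)) ^ (2 : ℝ) = t := by
    intro t
    rw [← ENNReal.rpow_mul]
    norm_num
  simp_rw [h8] at h7
  have h9 := pow_le_pow_left' h7 2
  refine h9.trans (le_of_eq ?_)
  rw [mul_pow, ← ENNReal.rpow_two, ← ENNReal.rpow_two, h8, h8]

end Pool.Agent.N248.SD
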