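import Mathlib
import Pool.Agent.R412.RT.A
import Pool.Agent.N248.SD.A
set_option autoImplicit false

/-! The two-set inequality: an abstract form for an operator with kernel
`exp (2πi (⟪p ξ, u⟫ + ⟪q ξ, z⟫))`. -/

namespace Pool.Agent.N248.SD

open MeasureTheory Complex Set
open scoped ENNReal RealInnerProductSpace ComplexConjugate Pointwise
open Pool.Agent.R412.RT (ee ee_norm ee_cont ee_meas ee_add ee_conj Kg Kg_nonneg gauss_ft gexp_int)

abbrev E (n : ℕ) := EuclideanSpace ℝ (Fin n)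

variable {X : Type*} [MeasurableSpace X] {m k : ℕ}

/-- the operator in the split coordinates -/
noncomputable def V (μ : Measure X) (p : X → E m) (q : X → E k) (φ : X → ℂ) (u : E m) (z : E k) :
    ℂ := ∫ x, ee (⟪p x, u⟫ + ⟪q x, z⟫) * φ x ∂μ

/-- the Gaussian measure of density `exp (-ε|z|²)` -/
noncomputable def gm (k : ℕ) (ε : ℝ) : Measure (E k) :=
  volume.withDensity fun z => ENNReal.ofReal (Real.exp (-ε * ‖z‖ ^ 2))

theorem gd_meas (ε : ℝ) : Measurable fun z : E k => ENNReal.ofReal (Real.exp (-ε * ‖z‖ ^ 2)) := by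
  fun_prop

theorem gm_fin (ε : ℝ) (hε : 0 < ε) : IsFiniteMeasure (gm k ε) := by
  constructor
  unfold gm
  rw [withDensity_apply _ MeasurableSet.univ, Measure.restrict_univ]
  exact ((gexp_int k ε hε).lintegral_lt_top)

/-- the measure on the parameters -/
noncomputable def nu (S A : Set (E m)) (ε : ℝ) : Measure (E m × E m × E k) :=
  (volume.restrict A).prod ((volume.restrict S).prod (gm k ε))

/-- the kernel -/
noncomputable def cc (p : X → E m) (q : X → E k) (ω : E m × E m × E k) (x : X) : ℂ :=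
  ee (⟪p x, ω.2.1 - ω.1⟫ + ⟪q x, ω.2.2⟫)

theorem cc_norm (p : X → E m) (q : X → E k) (ω : E m × E m × E k) (x : X) : ‖cc p q ω x‖ ≤ 1 :=
  (ee_norm _).le

theorem cc_meas (p : X → E m) (q : X → E k) (hp : Measurable p) (hq : Measurable q) :
    Measurable (Function.uncurry (cc p q)) := by
  unfold cc Function.uncurry
  refine ee_meas.comp (Measurable.add ?_ ?_)
  · exact Measurable.inner (hp.comp measurable_snd)
      ((measurable_fst.comp (measurable_snd.comp measurable_fst)).sub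
        (measurable_fst.comp measurable_fst))
  · exact Measurable.inner (hq.comp measurable_snd)
      (measurable_snd.comp (measurable_snd.comp measurable_fst))

theorem Tk_cc (μ : Measure X) (p : X → E m) (q : X → E k) (φ : X → ℂ) (ω : E m × E m × E k) :
    Tk μ (cc p q) φ ω = V μ p q φ (ω.2.1 - ω.1) ω.2.2 := rfl

/-- the Fourier transform of a set -/
noncomputable def aS (S : Set (E m)) (η : E m) : ℂ := ∫ w in S, ee ⟪η, w⟫

theorem Mk_cc (S A : Set (E m)) (ε : ℝ) (hε : 0 < ε) (hS : volume S ≠ ∞) (hA : volume A ≠ ∞)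
    (p : X → E m) (q : X → E k) (x : X × X) :
    Mk (nu S A ε) (cc p q) x = conj (aS A (p x.1 - p x.2)) *
      (aS S (p x.1 - p x.2) * (Kg k ε (q x.1 - q x.2) : ℂ)) := by
  haveI := gm_fin (k := k) ε hε
  haveI : IsFiniteMeasure ((volume : Measure (E m)).restrict S) :=
    ⟨by rw [Measure.restrict_apply_univ]; exact hS.lt_top⟩
  haveI : IsFiniteMeasure ((volume : Measure (E m)).restrict A) :=
    ⟨by rw [Measure.restrict_apply_univ]; exact hA.lt_top⟩
  unfold Mk nu
  have h1 : ∀ ω : E m × E m × E k, cc p q ω x.1 * conj (cc p q ω x.2) =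
      conj (ee ⟪p x.1 - p x.2, ω.1⟫) *
        (ee ⟪p x.1 - p x.2, ω.2.1⟫ * ee ⟪q x.1 - q x.2, ω.2.2⟫) := by
    intro ω
    unfold cc
    rw [ee_conj, ee_conj, ← ee_add, ← ee_add, ← ee_add]
    congr 1
    simp only [inner_sub_left, inner_sub_right]
    ring
  simp_rw [h1]
  rw [integral_prod_mul (μ := (volume : Measure (E m)).restrict A)
    (ν := ((volume : Measure (E m)).restrict S).prod (gm k ε))
    (fun y : E m => conj (ee ⟪p x.1 - p x.2, y⟫))
    (fun w : E m × E k => ee ⟪p x.1 - p x.2, w.1⟫ * ee ⟪q x.1 - q x.2, w.2⟫),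
    integral_prod_mul (μ := (volume : Measure (E m)).restrict S) (ν := gm k ε)
    (fun w : E m => ee ⟪p x.1 - p x.2, w⟫) (fun z : E k => ee ⟪q x.1 - q x.2, z⟫)]
  congr 1
  · unfold aS
    rw [← integral_conj]
  · congr 1
    unfold gm
    rw [integral_withDensity_eq_integral_toReal_smul (gd_meas ε)
      (Filter.Eventually.of_forall fun z => ENNReal.ofReal_lt_top), ← gauss_ft k ε hε]
    refine integral_congr_ae (Filter.Eventually.of_forall fun z => ?_)
    simp only
    rw [ENNReal.toReal_ofReal (Real.exp_nonneg _), Complex.real_smul]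

theorem key (μ : Measure X) [SFinite μ] (S A : Set (E m)) (ε : ℝ) (hε : 0 < ε)
    (hS : volume S ≠ ∞) (hA : volume A ≠ ∞)
    (p : X → E m) (q : X → E k) (hp : Measurable p) (hq : Measurable q)
    (φ : X → ℂ) (hφ : Integrable φ μ) (G : X → ℝ) (hG : Integrable G μ) (hG0 : ∀ x, 0 ≤ G x)
    (hφG : ∀ᵐ x ∂μ, ‖φ x‖ ≤ G x) :
    (∫⁻ ω, ‖V μ p q φ (ω.2.1 - ω.1) ω.2.2‖ₑ ^ 2 ∂(nu S A ε : Measure (E m × E m × E k))) ^ 2 ≤
      (∫⁻ ω, ‖V μ p q (fun x => (G x : ℂ)) (ω.2.1 - ω.1) ω.2.2‖ₑ ^ 2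
        ∂(nu S S ε : Measure (E m × E m × E k))) *
      ∫⁻ ω, ‖V μ p q (fun x => (G x : ℂ)) (ω.2.1 - ω.1) ω.2.2‖ₑ ^ 2
        ∂(nu A A ε : Measure (E m × E m × E k)) := by
  haveI := gm_fin (k := k) ε hε
  haveI : IsFiniteMeasure ((volume : Measure (E m)).restrict S) :=
    ⟨by rw [Measure.restrict_apply_univ]; exact hS.lt_top⟩
  haveI : IsFiniteMeasure ((volume : Measure (E m)).restrict A) :=
    ⟨by rw [Measure.restrict_apply_univ]; exact hA.lt_top⟩
  have hc := cc_meas p q hp hq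
  have i1 : IsFiniteMeasure (nu S A ε : Measure (E m × E m × E k)) := by unfold nu; infer_instance
  have hSr : IsFiniteMeasure (nu S S ε : Measure (E m × E m × E k)) := by unfold nu; infer_instance
  have hAr : IsFiniteMeasure (nu A A ε : Measure (E m × E m × E k)) := by unfold nu; infer_instance
  have hM : ∀ (T : Set (E m)), volume T ≠ ∞ → ∀ z : X × X, Mk (nu T T ε) (cc p q) z =
      ((‖aS T (p z.1 - p z.2)‖ ^ 2 * Kg k ε (q z.1 - q z.2) : ℝ) : ℂ) := by
    intro T hT z
    rw [Mk_cc T T ε hε hT hT, ← mul_assoc, ← Complex.normSq_eq_conj_mul_self,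
      Complex.normSq_eq_norm_sq]
    push_cast
    ring
  have h := schwarz μ (nu S A ε) (nu S S ε) (nu A A ε) (cc p q) (cc p q) (cc p q) hc hc hc
    (cc_norm p q) (cc_norm p q) (cc_norm p q)
    (fun z => ‖aS S (p z.1 - p z.2)‖ ^ 2 * Kg k ε (q z.1 - q z.2))
    (fun z => ‖aS A (p z.1 - p z.2)‖ ^ 2 * Kg k ε (q z.1 - q z.2))
    (fun z => mul_nonneg (by positivity) (Kg_nonneg k ε hε _))
    (fun z => mul_nonneg (by positivity) (Kg_nonneg k ε hε _))
    (hM S hS) (hM A hA)
    (fun z => by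
      rw [Mk_cc S A ε hε hS hA, norm_mul, norm_mul, Complex.norm_conj, Complex.norm_real,
        Real.norm_of_nonneg (Kg_nonneg k ε hε _)]
      apply le_of_eq
      ring)
    φ hφ G hG hG0 hφG
  exact h

theorem V_meas (μ : Measure X) [SFinite μ] (p : X → E m) (q : X → E k) (hp : Measurable p)
    (hq : Measurable q) (φ : X → ℂ) (hφ : StronglyMeasurable φ) :
    Measurable (Function.uncurry (V μ p q φ)) := by
  have : StronglyMeasurable (Function.uncurry fun (y : E m × E k) (x : X) =>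
      ee (⟪p x, y.1⟫ + ⟪q x, y.2⟫) * φ x) := by
    refine StronglyMeasurable.mul ?_ (hφ.comp_measurable measurable_snd)
    refine (ee_meas.comp ?_).stronglyMeasurable
    exact (Measurable.inner (hp.comp measurable_snd) (measurable_fst.comp measurable_fst)).add
      (Measurable.inner (hq.comp measurable_snd) (measurable_snd.comp measurable_fst))
  exact this.integral_prod_right.measurable

theorem nu_lint (S A : Set (E m)) (ε : ℝ) (hε : 0 < ε) (F : E m × E m × E k → ℝ≥0∞)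
    (hF : Measurable F) :
    ∫⁻ ω, F ω ∂(nu S A ε : Measure (E m × E m × E k)) =
      ∫⁻ y in A, ∫⁻ w in S, ∫⁻ z, F (y, w, z) * ENNReal.ofReal (Real.exp (-ε * ‖z‖ ^ 2)) := by
  haveI := gm_fin (k := k) ε hε
  unfold nu
  rw [lintegral_prod _ hF.aemeasurable]
  refine lintegral_congr fun y => ?_
  rw [lintegral_prod _ (by fun_prop)]
  refine lintegral_congr fun w => ?_
  unfold gm
  rw [lintegral_withDensity_eq_lintegral_mul _ (gd_meas ε) (by fun_prop)]
  refine lintegral_congr fun z => ?_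
  rw [Pi.mul_apply, mul_comm]

theorem low (μ : Measure X) [SFinite μ] (S A B : Set (E m)) (hAm : MeasurableSet A)
    (hBm : MeasurableSet B) (hSm : MeasurableSet S) (hAB : ∀ a ∈ A, ∀ b ∈ B, b + a ∈ S) (ε : ℝ)
    (hε : 0 < ε) (p : X → E m) (q : X → E k) (hp : Measurable p) (hq : Measurable q) (φ : X → ℂ)
    (hφ : StronglyMeasurable φ) :
    (∫⁻ u in B, ∫⁻ z, ‖V μ p q φ u z‖ₑ ^ 2 * ENNReal.ofReal (Real.exp (-ε * ‖z‖ ^ 2))) *
      volume A ≤
      ∫⁻ ω, ‖V μ p q φ (ω.2.1 - ω.1) ω.2.2‖ₑ ^ 2 ∂(nu S A ε : Measure (E m × E m × E k)) := by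
  have hV := V_meas μ p q hp hq φ hφ
  have hF : Measurable fun ω : E m × E m × E k => ‖V μ p q φ (ω.2.1 - ω.1) ω.2.2‖ₑ ^ 2 := by
    have : Measurable fun ω : E m × E m × E k => ((ω.2.1 - ω.1, ω.2.2) : E m × E k) := by
      fun_prop
    exact (hV.comp this).enorm.pow_const 2
  rw [nu_lint S A ε hε _ hF, ← setLIntegral_const]
  set g : E m → ℝ≥0∞ := fun u => ∫⁻ z, ‖V μ p q φ u z‖ₑ ^ 2 *
    ENNReal.ofReal (Real.exp (-ε * ‖z‖ ^ 2)) with hg
  refine setLIntegral_mono' hAm ?_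
  · intro y hy
    show ∫⁻ u in B, g u ≤ ∫⁻ w in S, g (w - y)
    rw [← lintegral_indicator hBm, ← lintegral_indicator hSm,
      ← lintegral_sub_right_eq_self (fun u => B.indicator g u) y]
    refine lintegral_mono fun w => ?_
    by_cases hw : w - y ∈ B
    · have : w ∈ S := by
        have := hAB y hy (w - y) hw
        simpa using this
      rw [indicator_of_mem hw, indicator_of_mem this]
    · rw [indicator_of_notMem hw]
      exact zero_le

theorem up (μ : Measure X) [SFinite μ] (S : Set (E m)) (ε : ℝ)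
    (hε : 0 < ε) (p : X → E m) (q : X → E k) (hp : Measurable p) (hq : Measurable q) (φ : X → ℂ)
    (hφ : StronglyMeasurable φ) (κ : E m → ℝ≥0∞)
    (hκ : ∀ u, ∫⁻ z, ‖V μ p q φ u z‖ₑ ^ 2 ≤ κ u) :
    ∫⁻ ω, ‖V μ p q φ (ω.2.1 - ω.1) ω.2.2‖ₑ ^ 2 ∂(nu S S ε : Measure (E m × E m × E k)) ≤
      ∫⁻ y in S, ∫⁻ w in S, κ (w - y) := by
  have hV := V_meas μ p q hp hq φ hφ
  have hF : Measurable fun ω : E m × E m × E k => ‖V μ p q φ (ω.2.1 - ω.1) ω.2.2‖ₑ ^ 2 := by
    have : Measurable fun ω : E m × E m × E k => ((ω.2.1 - ω.1, ω.2.2) : E m × E k) := by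
      fun_prop
    exact (hV.comp this).enorm.pow_const 2
  rw [nu_lint S S ε hε _ hF]
  refine lintegral_mono fun y => lintegral_mono fun w => ?_
  refine le_trans (lintegral_mono fun z => ?_) (hκ (w - y))
  refine mul_le_of_le_one_right' ?_
  rw [← ENNReal.ofReal_one]
  refine ENNReal.ofReal_le_ofReal (Real.exp_le_one_iff.2 ?_)
  have : 0 ≤ ε * ‖z‖ ^ 2 := by positivity
  linarith

end Pool.Agent.N248.SD
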