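import Mathlib
import Pool.Agent.R412.RT.C
set_option autoImplicit false

/-! The extension of a Gaussian: decay of order `(d-1)/2` in all directions. -/

namespace Pool.Agent.N248.SD

open MeasureTheory Complex Set
open scoped ENNReal RealInnerProductSpace ComplexConjugate
open Pool.Agent.R412.RT (ee Phi Ex inner_eq Phi_cast Phi_last)

variable {n : ℕ}

/-- a Gaussian that majorises the characteristic function of the cube `[-1,1]^n` -/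
noncomputable def Gs (n : ℕ) (ξ : EuclideanSpace ℝ (Fin n)) : ℝ := Real.exp (n - ‖ξ‖ ^ 2)

theorem Gs_nonneg (ξ : EuclideanSpace ℝ (Fin n)) : 0 ≤ Gs n ξ := (Real.exp_pos _).le

theorem Gs_cont : Continuous (Gs n) := by unfold Gs; fun_prop

theorem Gs_int : Integrable (Gs n) := by
  have h := Pool.Agent.R412.RT.gexp_int n 1 one_pos
  have h2 := h.const_mul (Real.exp n)
  refine h2.congr (Filter.Eventually.of_forall fun ξ => ?_)
  simp only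
  unfold Gs
  rw [← Real.exp_add]
  congr 1
  ring

theorem Gs_cube (ξ : EuclideanSpace ℝ (Fin n)) (h : ∀ i, |ξ i| ≤ 1) : 1 ≤ Gs n ξ := by
  unfold Gs
  refine Real.one_le_exp ?_
  rw [EuclideanSpace.norm_sq_eq]
  have : ∑ i : Fin n, ‖ξ i‖ ^ 2 ≤ ∑ i : Fin n, (1 : ℝ) := by
    refine Finset.sum_le_sum fun i _ => ?_
    rw [Real.norm_eq_abs]
    have := h i
    have h0 := abs_nonneg (ξ i)
    nlinarith
  rw [Finset.sum_const, Finset.card_univ, Fintype.card_fin, nsmul_eq_mul, mul_one] at this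
  linarith

theorem pow_exp (N : ℕ) (u : ℝ) (hu : 0 ≤ u) :
    Real.exp (-(2 * Real.pi ^ 2 * u)) ≤ ((N : ℝ) + 1) ^ ((N : ℝ) / 2) * (1 + u) ^ (-((N : ℝ) / 2)) := by
  have hN : (0 : ℝ) < (N : ℝ) + 1 := by positivity
  have h1 : 1 + u ≤ ((N : ℝ) + 1) * Real.exp (u / ((N : ℝ) + 1)) := by
    have h2 := Real.add_one_le_exp (u / ((N : ℝ) + 1))
    have h3 : ((N : ℝ) + 1) * (u / ((N : ℝ) + 1) + 1) = u + (N + 1) := by field_simp
    have h4 := mul_le_mul_of_nonneg_left h2 hN.le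
    rw [h3] at h4
    have : (0 : ℝ) ≤ N := Nat.cast_nonneg N
    linarith
  have h5 : (1 + u) ^ ((N : ℝ) / 2) ≤
      ((N : ℝ) + 1) ^ ((N : ℝ) / 2) * Real.exp (u / ((N : ℝ) + 1) * ((N : ℝ) / 2)) := by
    refine (Real.rpow_le_rpow (by linarith) h1 (by positivity)).trans (le_of_eq ?_)
    rw [Real.mul_rpow hN.le (Real.exp_nonneg _), ← Real.exp_mul]
  have h6 : u / ((N : ℝ) + 1) * ((N : ℝ) / 2) ≤ 2 * Real.pi ^ 2 * u := by
    have a1 : u / ((N : ℝ) + 1) * ((N : ℝ) / 2) ≤ u / 2 := by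
      rw [div_mul_div_comm, div_le_div_iff₀ (by positivity) (by norm_num)]
      nlinarith
    have a2 : (9 : ℝ) ≤ Real.pi ^ 2 := by nlinarith [Real.pi_gt_three]
    nlinarith
  have h7 : (1 + u) ^ ((N : ℝ) / 2) * Real.exp (-(2 * Real.pi ^ 2 * u)) ≤
      ((N : ℝ) + 1) ^ ((N : ℝ) / 2) := by
    refine (mul_le_mul_of_nonneg_right h5 (Real.exp_nonneg _)).trans ?_
    rw [mul_assoc, ← Real.exp_add]
    refine mul_le_of_le_one_right (by positivity) (Real.exp_le_one_iff.2 (by linarith))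
  have h8 : 0 < (1 + u) ^ ((N : ℝ) / 2) := by positivity
  rw [Real.rpow_neg (by linarith), ← div_eq_mul_inv, le_div_iff₀ h8, mul_comm]
  exact h7

/-- the constant of the Gaussian -/
noncomputable def Cg (n : ℕ) : ℝ := Real.exp n ^ 2 * Real.pi ^ (n : ℝ) * ((n : ℝ) + 1) ^ ((n : ℝ) / 2)

theorem Cg_nonneg (n : ℕ) : 0 ≤ Cg n := by unfold Cg; positivity

theorem norm_split (x : EuclideanSpace ℝ (Fin (n + 1))) :
    ‖x‖ ^ 2 = ‖(WithLp.toLp 2 fun i : Fin n => x i.castSucc : EuclideanSpace ℝ (Fin n))‖ ^ 2 +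
      x (Fin.last n) ^ 2 := by
  rw [EuclideanSpace.norm_sq_eq, EuclideanSpace.norm_sq_eq, Fin.sum_univ_castSucc]
  simp

theorem Ex_gauss (x : EuclideanSpace ℝ (Fin (n + 1))) :
    ‖Ex (fun ξ => ((Gs n ξ : ℝ) : ℂ)) x‖ ^ 2 ≤ Cg n * (1 + ‖x‖ ^ 2) ^ (-((n : ℝ) / 2)) := by
  set y : EuclideanSpace ℝ (Fin n) := WithLp.toLp 2 fun i : Fin n => x i.castSucc with hy
  set t : ℝ := x (Fin.last n) with ht
  set b : ℂ := 1 - 2 * Real.pi * t * I with hb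
  have hbre : b.re = 1 := by simp [hb]
  have hbim : b.im = -(2 * Real.pi * t) := by simp [hb]
  have hb0 : 0 < b.re := by rw [hbre]; exact one_pos
  have h := GaussianFourier.integral_cexp_neg_mul_sq_norm_add (V := EuclideanSpace ℝ (Fin n)) hb0
    (2 * Real.pi * I) y
  have e1 : Ex (fun ξ => ((Gs n ξ : ℝ) : ℂ)) x = Real.exp n * ∫ v : EuclideanSpace ℝ (Fin n),
      cexp (-b * ‖v‖ ^ 2 + 2 * Real.pi * I * ⟪y, v⟫) := by
    unfold Ex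
    rw [← integral_const_mul]
    refine integral_congr_ae (Filter.Eventually.of_forall fun ξ => ?_)
    simp only
    have i1 : ⟪Phi ξ, x⟫ = ⟪y, ξ⟫ + ‖ξ‖ ^ 2 * t := by
      rw [inner_eq, Fin.sum_univ_castSucc, real_inner_comm, inner_eq, EuclideanSpace.norm_sq_eq]
      simp [hy, ht]
    unfold Gs ee
    rw [i1, Complex.ofReal_exp, Complex.ofReal_exp, ← Complex.exp_add, ← Complex.exp_add]
    congr 1
    rw [hb]
    push_cast
    ring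
  rw [e1, h, norm_mul, norm_mul, finrank_euclideanSpace, Fintype.card_fin]
  have hbn : ‖b‖ ^ 2 = 1 + (2 * Real.pi * t) ^ 2 := by
    rw [← Complex.normSq_eq_norm_sq, Complex.normSq_apply, hbre, hbim]
    ring
  have hbpos : 0 < ‖b‖ := norm_pos_iff.2 (fun h0 => by rw [h0] at hb0; simp at hb0)
  have n1 : ‖((Real.pi : ℂ) / b) ^ ((n : ℂ) / 2)‖ = (Real.pi / ‖b‖) ^ ((n : ℝ) / 2) := by
    rw [show ((n : ℂ) / 2) = (((n : ℝ) / 2 : ℝ) : ℂ) by push_cast; rfl, Complex.norm_cpow_real,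
      norm_div, Complex.norm_real, Real.norm_of_nonneg Real.pi_pos.le]
  have n2 : ‖cexp ((2 * (Real.pi : ℂ) * I) ^ 2 * (‖y‖ : ℂ) ^ 2 / (4 * b))‖ =
      Real.exp (-(Real.pi ^ 2 * ‖y‖ ^ 2 / ‖b‖ ^ 2)) := by
    rw [Complex.norm_exp]
    congr 1
    have : (2 * (Real.pi : ℂ) * I) ^ 2 * (‖y‖ : ℂ) ^ 2 / (4 * b) =
        ((-(Real.pi ^ 2 * ‖y‖ ^ 2) : ℝ) : ℂ) * b⁻¹ := by
      rw [mul_pow, mul_pow, I_sq]
      have hb' : b ≠ 0 := norm_pos_iff.1 hbpos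
      field_simp
      push_cast
      ring
    rw [this, Complex.re_ofReal_mul, Complex.inv_re, hbre, Complex.normSq_eq_norm_sq]
    ring
  have n3 : ‖((Real.exp n : ℝ) : ℂ)‖ = Real.exp n := by
    rw [Complex.norm_real, Real.norm_of_nonneg (Real.exp_nonneg _)]
  rw [n1, n2, n3, mul_pow, mul_pow]
  have q1 : ((Real.pi / ‖b‖) ^ ((n : ℝ) / 2)) ^ 2 = Real.pi ^ (n : ℝ) * (‖b‖ ^ 2) ^ (-((n : ℝ) / 2)) := by
    rw [← Real.rpow_natCast, ← Real.rpow_mul (by positivity), Real.div_rpow Real.pi_pos.le hbpos.le,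
      Real.rpow_neg (by positivity), ← Real.rpow_natCast (‖b‖) 2, ← Real.rpow_mul hbpos.le,
      div_eq_mul_inv]
    norm_num
    rw [show (2 : ℝ) * ((n : ℝ) / 2) = (n : ℝ) by ring, Real.rpow_natCast]
  have q2 : Real.exp (-(Real.pi ^ 2 * ‖y‖ ^ 2 / ‖b‖ ^ 2)) ^ 2 =
      Real.exp (-(2 * Real.pi ^ 2 * (‖y‖ ^ 2 / ‖b‖ ^ 2))) := by
    rw [← Real.exp_nat_mul]
    congr 1
    push_cast
    ring
  rw [q1, q2]
  have q3 := pow_exp n (‖y‖ ^ 2 / ‖b‖ ^ 2) (by positivity)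
  have q4 : (‖b‖ ^ 2) ^ (-((n : ℝ) / 2)) * (1 + ‖y‖ ^ 2 / ‖b‖ ^ 2) ^ (-((n : ℝ) / 2)) ≤
      (1 + ‖x‖ ^ 2) ^ (-((n : ℝ) / 2)) := by
    rw [← Real.mul_rpow (by positivity) (by positivity)]
    refine Real.rpow_le_rpow_of_nonpos (by positivity) ?_ (by
      have : (0 : ℝ) ≤ n := Nat.cast_nonneg n
      linarith)
    have : ‖b‖ ^ 2 * (1 + ‖y‖ ^ 2 / ‖b‖ ^ 2) = ‖b‖ ^ 2 + ‖y‖ ^ 2 := by
      field_simp
    rw [this, hbn, norm_split x]
    have : (9 : ℝ) ≤ Real.pi ^ 2 := by nlinarith [Real.pi_gt_three]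
    nlinarith [sq_nonneg t]
  calc Real.exp n ^ 2 * (Real.pi ^ (n : ℝ) * (‖b‖ ^ 2) ^ (-((n : ℝ) / 2)) *
        Real.exp (-(2 * Real.pi ^ 2 * (‖y‖ ^ 2 / ‖b‖ ^ 2))))
      ≤ Real.exp n ^ 2 * (Real.pi ^ (n : ℝ) * (‖b‖ ^ 2) ^ (-((n : ℝ) / 2)) *
        (((n : ℝ) + 1) ^ ((n : ℝ) / 2) * (1 + ‖y‖ ^ 2 / ‖b‖ ^ 2) ^ (-((n : ℝ) / 2)))) := by
        gcongr
    _ = Cg n * ((‖b‖ ^ 2) ^ (-((n : ℝ) / 2)) * (1 + ‖y‖ ^ 2 / ‖b‖ ^ 2) ^ (-((n : ℝ) / 2))) := by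
        unfold Cg; ring
    _ ≤ _ := mul_le_mul_of_nonneg_left q4 (Cg_nonneg n)

end Pool.Agent.N248.SD
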