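import Mathlib
set_option autoImplicit false

/-! Scaling, the Riesz potential of a set, and the fibre integral of the Japanese bracket. -/

namespace Pool.Agent.N248.SD

open MeasureTheory Complex Set Metric
open scoped ENNReal

theorem scale {N : ℕ} (g : EuclideanSpace ℝ (Fin N) → ℝ≥0∞) (hg : Measurable g) (r : ℝ)
    (hr : 0 < r) :
    ∫⁻ v, g (r⁻¹ • v) = ENNReal.ofReal (r ^ N) * ∫⁻ v, g v := by
  have h := Measure.map_addHaar_smul (volume : Measure (EuclideanSpace ℝ (Fin N)))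
    (r := r⁻¹) (inv_ne_zero hr.ne')
  have h2 : ∫⁻ v, g (r⁻¹ • v) = ∫⁻ v, g v ∂(Measure.map (r⁻¹ • ·) volume) := by
    rw [lintegral_map hg (measurable_const_smul _)]
  rw [h2, h, lintegral_smul_measure, finrank_euclideanSpace, Fintype.card_fin]
  congr 2
  rw [inv_pow, inv_inv, abs_of_pos (by positivity)]

/-- the integral of `|v|^(-(m-1))` over the unit ball -/
noncomputable def Rz (m : ℕ) : ℝ≥0∞ :=
  ∫⁻ v : EuclideanSpace ℝ (Fin m), (ball (0 : EuclideanSpace ℝ (Fin m)) 1).indicator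
    (fun v => ENNReal.ofReal (‖v‖ ^ (-((m : ℝ) - 1)))) v

theorem Rz_ne_top (m : ℕ) (hm : 1 ≤ m) : Rz m ≠ ∞ := by
  unfold Rz
  rw [lintegral_indicator measurableSet_ball]
  have h : IntegrableOn (fun v : EuclideanSpace ℝ (Fin m) => ‖v‖ ^ (-((m : ℝ) - 1)))
      (ball 0 1) := by
    refine integrableOn_ball_of_norm_le_rpow (C := 1) (α := (m : ℝ) - 1) ?_ ?_ ?_ ?_
    · rw [finrank_euclideanSpace, Fintype.card_fin]; exact hm
    · rw [finrank_euclideanSpace, Fintype.card_fin]; linarith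
    · refine Filter.Eventually.of_forall fun v => ?_
      rw [Real.norm_of_nonneg (by positivity), one_mul]
    · exact (measurable_norm.pow_const _).aestronglyMeasurable
  exact h.lintegral_lt_top.ne

theorem Rz_scale (m : ℕ) (hm : 1 ≤ m) (ρ : ℝ) (hρ : 0 < ρ) :
    ∫⁻ v : EuclideanSpace ℝ (Fin m) in ball 0 ρ, ENNReal.ofReal (‖v‖ ^ (-((m : ℝ) - 1))) =
      ENNReal.ofReal ρ * Rz m := by
  rw [← lintegral_indicator measurableSet_ball]
  have hg : Measurable ((ball (0 : EuclideanSpace ℝ (Fin m)) 1).indicator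
      (fun v => ENNReal.ofReal (‖v‖ ^ (-((m : ℝ) - 1))))) :=
    ((measurable_norm.pow_const _).ennreal_ofReal).indicator measurableSet_ball
  have h := scale _ hg ρ hρ
  have e1 : ∀ v : EuclideanSpace ℝ (Fin m), (ball (0 : EuclideanSpace ℝ (Fin m)) ρ).indicator
      (fun v => ENNReal.ofReal (‖v‖ ^ (-((m : ℝ) - 1)))) v =
      ENNReal.ofReal (ρ ^ (-((m : ℝ) - 1))) *
        (ball (0 : EuclideanSpace ℝ (Fin m)) 1).indicator
      (fun v => ENNReal.ofReal (‖v‖ ^ (-((m : ℝ) - 1)))) (ρ⁻¹ • v) := by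
    intro v
    have hn : ‖ρ⁻¹ • v‖ = ρ⁻¹ * ‖v‖ := by
      rw [norm_smul, Real.norm_of_nonneg (by positivity)]
    by_cases hv : ‖v‖ < ρ
    · have h1 : v ∈ ball (0 : EuclideanSpace ℝ (Fin m)) ρ := by simpa using hv
      have h2 : ρ⁻¹ • v ∈ ball (0 : EuclideanSpace ℝ (Fin m)) 1 := by
        rw [mem_ball_zero_iff, hn, inv_mul_lt_iff₀ hρ, mul_one]; exact hv
      rw [indicator_of_mem h1, indicator_of_mem h2, hn, ← ENNReal.ofReal_mul (by positivity)]
      congr 1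
      rw [Real.mul_rpow (by positivity) (norm_nonneg _), Real.inv_rpow hρ.le, ← mul_assoc,
        mul_inv_cancel₀ (by positivity), one_mul]
    · have h1 : v ∉ ball (0 : EuclideanSpace ℝ (Fin m)) ρ := by simpa using hv
      have h2 : ρ⁻¹ • v ∉ ball (0 : EuclideanSpace ℝ (Fin m)) 1 := by
        rw [mem_ball_zero_iff, hn, inv_mul_lt_iff₀ hρ, mul_one]; exact hv
      rw [indicator_of_notMem h1, indicator_of_notMem h2, mul_zero]
  have hgm : Measurable fun v : EuclideanSpace ℝ (Fin m) =>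
      (ball (0 : EuclideanSpace ℝ (Fin m)) 1).indicator
      (fun v => ENNReal.ofReal (‖v‖ ^ (-((m : ℝ) - 1)))) (ρ⁻¹ • v) :=
    hg.comp (measurable_const_smul _)
  simp_rw [e1]
  rw [lintegral_const_mul _ hgm, h]
  unfold Rz
  rw [← mul_assoc, ← ENNReal.ofReal_mul (by positivity)]
  congr 2
  rw [← Real.rpow_natCast, ← Real.rpow_add hρ]
  have : -((m : ℝ) - 1) + (m : ℝ) = 1 := by ring
  rw [this, Real.rpow_one]

/-- the bracket -/
noncomputable def br (m : ℕ) (v : EuclideanSpace ℝ (Fin m)) : ℝ≥0∞ :=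
  ENNReal.ofReal ((1 + ‖v‖ ^ 2) ^ (-(((m : ℝ) - 1) / 2)))

theorem br_meas (m : ℕ) : Measurable (br m) := by
  unfold br; fun_prop

theorem br_le (m : ℕ) (hm : 1 ≤ m) (v : EuclideanSpace ℝ (Fin m)) (hv : v ≠ 0) :
    br m v ≤ ENNReal.ofReal (‖v‖ ^ (-((m : ℝ) - 1))) := by
  unfold br
  refine ENNReal.ofReal_le_ofReal ?_
  have h0 : 0 < ‖v‖ := norm_pos_iff.2 hv
  have hm' : (1 : ℝ) ≤ m := by exact_mod_cast hm
  have e : ‖v‖ ^ (-((m : ℝ) - 1)) = (‖v‖ ^ 2) ^ (-(((m : ℝ) - 1) / 2)) := by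
    rw [← Real.rpow_natCast ‖v‖ 2, ← Real.rpow_mul h0.le]
    congr 1
    push_cast
    ring
  rw [e]
  refine Real.rpow_le_rpow_of_nonpos (by positivity) (by linarith) (by linarith)

theorem pot (m : ℕ) (hm : 1 ≤ m) (T : Set (EuclideanSpace ℝ (Fin m))) (hT : MeasurableSet T) :
    ∫⁻ v in T, br m v ≤ (Rz m + 1) * volume T ^ (1 / (m : ℝ)) := by
  have hm' : (1 : ℝ) ≤ m := by exact_mod_cast hm
  rcases eq_or_ne (volume T) 0 with h0 | h0
  · rw [Measure.restrict_eq_zero.2 h0, lintegral_zero_measure]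
    exact zero_le
  rcases eq_or_ne (volume T) ∞ with h1 | h1
  · rw [h1, ENNReal.top_rpow_of_pos (by positivity), ENNReal.mul_top (by simp)]
    exact le_top
  set s : ℝ := (volume T).toReal with hs
  have hs0 : 0 < s := ENNReal.toReal_pos h0 h1
  have hsT : volume T = ENNReal.ofReal s := (ENNReal.ofReal_toReal h1).symm
  set ρ : ℝ := s ^ (1 / (m : ℝ)) with hρ
  have hρ0 : 0 < ρ := by positivity
  have haz : ∀ᵐ v : EuclideanSpace ℝ (Fin m) ∂volume, v ≠ 0 ∨ False := by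
    have : Nonempty (Fin m) := ⟨⟨0, hm⟩⟩
    have : volume ({0} : Set (EuclideanSpace ℝ (Fin m))) = 0 := measure_singleton 0
    rw [ae_iff]
    simpa using this
  have hsub : ∫⁻ v in T, br m v ≤ (∫⁻ v in ball 0 ρ, br m v) + ∫⁻ v in T \ ball 0 ρ, br m v := by
    have : T ⊆ ball 0 ρ ∪ (T \ ball 0 ρ) := by
      intro v hv
      by_cases h : v ∈ ball (0 : EuclideanSpace ℝ (Fin m)) ρ
      · exact Or.inl h
      · exact Or.inr ⟨hv, h⟩
    exact (lintegral_mono_set this).trans (lintegral_union_le _ _ _)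
  refine hsub.trans ?_
  have hA : ∫⁻ v in ball 0 ρ, br m v ≤ Rz m * volume T ^ (1 / (m : ℝ)) := by
    have : ∫⁻ v in ball 0 ρ, br m v ≤ ∫⁻ v : EuclideanSpace ℝ (Fin m) in ball 0 ρ,
        ENNReal.ofReal (‖v‖ ^ (-((m : ℝ) - 1))) := by
      refine lintegral_mono_ae ?_
      refine ae_restrict_of_ae ?_
      filter_upwards [haz] with v hv
      exact br_le m hm v (by simpa using hv)
    refine this.trans ?_
    rw [Rz_scale m hm ρ hρ0, mul_comm, hsT, ENNReal.ofReal_rpow_of_pos hs0]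
  have hB : ∫⁻ v in T \ ball 0 ρ, br m v ≤ 1 * volume T ^ (1 / (m : ℝ)) := by
    have h2 : ∫⁻ v in T \ ball 0 ρ, br m v ≤ ∫⁻ v in T \ ball 0 ρ,
        ENNReal.ofReal (ρ ^ (-((m : ℝ) - 1))) := by
      refine setLIntegral_mono' (hT.diff measurableSet_ball) ?_
      intro v hv
      have hv1 : ρ ≤ ‖v‖ := by
        have := hv.2
        simpa using this
      have hv0 : v ≠ 0 := norm_pos_iff.1 (hρ0.trans_le hv1)
      refine (br_le m hm v hv0).trans (ENNReal.ofReal_le_ofReal ?_)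
      exact Real.rpow_le_rpow_of_nonpos hρ0 hv1 (by linarith)
    refine h2.trans ?_
    rw [setLIntegral_const]
    refine (mul_le_mul' le_rfl (measure_mono sdiff_subset)).trans (le_of_eq ?_)
    rw [hsT, ← ENNReal.ofReal_mul (by positivity), ENNReal.ofReal_rpow_of_pos hs0, one_mul]
    congr 1
    rw [hρ, ← Real.rpow_mul hs0.le]
    nth_rewrite 2 [← Real.rpow_one s]
    rw [← Real.rpow_add hs0]
    congr 1
    have : (m : ℝ) ≠ 0 := by positivity
    field_simp
    ring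
  refine (add_le_add hA hB).trans (le_of_eq ?_)
  ring

theorem pot_all (m : ℕ) (hm : 1 ≤ m) (S : Set (EuclideanSpace ℝ (Fin m))) (hS : MeasurableSet S)
    (y : EuclideanSpace ℝ (Fin m)) :
    ∫⁻ w in S, br m (w - y) ≤ (Rz m + 1) * volume S ^ (1 / (m : ℝ)) := by
  have h := pot m hm ((fun w => w + y) ⁻¹' S) (hS.preimage (measurable_add_const y))
  rw [measure_preimage_add_right] at h
  refine le_trans (le_of_eq ?_) h
  rw [← lintegral_indicator hS, ← lintegral_indicator (hS.preimage (measurable_add_const y)),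
    ← lintegral_sub_right_eq_self (((fun w => w + y) ⁻¹' S).indicator (br m)) y]
  refine lintegral_congr fun w => ?_
  by_cases hw : w ∈ S
  · rw [indicator_of_mem hw, indicator_of_mem (by simpa using hw)]
  · rw [indicator_of_notMem hw, indicator_of_notMem (by simpa using hw)]

/-- the fibre integral -/
noncomputable def Jk (n k : ℕ) : ℝ≥0∞ :=
  ∫⁻ z : EuclideanSpace ℝ (Fin k), ENNReal.ofReal ((1 + ‖z‖ ^ 2) ^ (-((n : ℝ) / 2)))

theorem Jk_ne_top (n k : ℕ) (h : k < n) : Jk n k ≠ ∞ := by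
  unfold Jk
  have := integrable_rpow_neg_one_add_norm_sq (E := EuclideanSpace ℝ (Fin k))
    (μ := volume) (r := (n : ℝ)) (by
      rw [finrank_euclideanSpace, Fintype.card_fin]; exact_mod_cast h)
  have h2 := this.lintegral_lt_top.ne
  convert h2 using 5
  ring

theorem fibre (n m k : ℕ) (hmk : m + k = n + 1) (u : EuclideanSpace ℝ (Fin m)) :
    ∫⁻ z : EuclideanSpace ℝ (Fin k),
      ENNReal.ofReal ((1 + (‖u‖ ^ 2 + ‖z‖ ^ 2)) ^ (-((n : ℝ) / 2))) = Jk n k * br m u := by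
  set a : ℝ := 1 + ‖u‖ ^ 2 with ha
  have ha0 : 0 < a := by positivity
  set r : ℝ := Real.sqrt a with hr
  have hr0 : 0 < r := Real.sqrt_pos.2 ha0
  have hra : r ^ 2 = a := Real.sq_sqrt ha0.le
  have hg : Measurable fun z : EuclideanSpace ℝ (Fin k) =>
      ENNReal.ofReal ((1 + ‖z‖ ^ 2) ^ (-((n : ℝ) / 2))) := by fun_prop
  have h := scale _ hg r hr0
  have e1 : ∀ z : EuclideanSpace ℝ (Fin k),
      ENNReal.ofReal ((1 + (‖u‖ ^ 2 + ‖z‖ ^ 2)) ^ (-((n : ℝ) / 2))) =
      ENNReal.ofReal (a ^ (-((n : ℝ) / 2))) *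
        ENNReal.ofReal ((1 + ‖r⁻¹ • z‖ ^ 2) ^ (-((n : ℝ) / 2))) := by
    intro z
    rw [← ENNReal.ofReal_mul (by positivity), ← Real.mul_rpow ha0.le (by positivity), norm_smul,
      Real.norm_of_nonneg (by positivity), mul_pow, inv_pow, hra]
    congr 2
    have : a * (1 + a⁻¹ * ‖z‖ ^ 2) = a + ‖z‖ ^ 2 := by field_simp
    rw [this, ha]
    ring
  have hgm : Measurable fun z : EuclideanSpace ℝ (Fin k) =>
      ENNReal.ofReal ((1 + ‖r⁻¹ • z‖ ^ 2) ^ (-((n : ℝ) / 2))) := by fun_prop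
  simp_rw [e1]
  rw [lintegral_const_mul _ hgm, h]
  unfold Jk br
  rw [← mul_assoc, ← ENNReal.ofReal_mul (by positivity), mul_comm]
  congr 2
  rw [← Real.rpow_natCast r k, hr, Real.sqrt_eq_rpow, ← Real.rpow_mul ha0.le, ← Real.rpow_add ha0]
  congr 1
  have : (m : ℝ) + k = n + 1 := by exact_mod_cast hmk
  linarith

end Pool.Agent.N248.SD
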