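import Mathlib
import Pool.Agent.N248.SD.B
import Pool.Agent.N248.SD.C
import Pool.Agent.N248.SD.D
set_option autoImplicit false

/-! Coordinates adapted to an orthonormal family, and the two-set inequality. -/

namespace Pool.Agent.N248.SD

open MeasureTheory Complex Set
open scoped ENNReal RealInnerProductSpace ComplexConjugate Pointwise
open Pool.Agent.R412.RT (ee ee_norm Phi Ex inner_eq Phi_cast Phi_last)

variable {n m k : ℕ}

/-- the point with coordinates `u`, `z` -/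
noncomputable def asm (b : OrthonormalBasis (Fin m ⊕ Fin k) ℝ (E (n + 1))) (u : E m) (z : E k) :
    E (n + 1) :=
  b.repr.symm (WithLp.toLp 2 (Sum.elim u.ofLp z.ofLp))

/-- the first coordinates -/
noncomputable def pr (b : OrthonormalBasis (Fin m ⊕ Fin k) ℝ (E (n + 1))) (x : E (n + 1)) : E m :=
  WithLp.toLp 2 fun i => ⟪b (Sum.inl i), x⟫

/-- the last coordinates -/
noncomputable def qr (b : OrthonormalBasis (Fin m ⊕ Fin k) ℝ (E (n + 1))) (x : E (n + 1)) : E k :=
  WithLp.toLp 2 fun j => ⟪b (Sum.inr j), x⟫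

variable (b : OrthonormalBasis (Fin m ⊕ Fin k) ℝ (E (n + 1)))

theorem asm_coord (u : E m) (z : E k) (i : Fin m ⊕ Fin k) :
    ⟪b i, asm b u z⟫ = Sum.elim u.ofLp z.ofLp i := by
  unfold asm
  rw [← b.repr_apply_apply, LinearIsometryEquiv.apply_symm_apply]

theorem pr_asm (u : E m) (z : E k) : pr b (asm b u z) = u := by
  unfold pr
  ext i
  simp [asm_coord]

theorem inner_asm (a : E (n + 1)) (u : E m) (z : E k) :
    ⟪a, asm b u z⟫ = ⟪pr b a, u⟫ + ⟪qr b a, z⟫ := by
  rw [← b.sum_inner_mul_inner, Fintype.sum_sum_type, inner_eq, inner_eq]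
  congr 1
  · refine Finset.sum_congr rfl fun i _ => ?_
    rw [asm_coord, real_inner_comm]
    simp [pr]
  · refine Finset.sum_congr rfl fun i _ => ?_
    rw [asm_coord, real_inner_comm]
    simp [qr]

theorem norm_asm (u : E m) (z : E k) : ‖asm b u z‖ ^ 2 = ‖u‖ ^ 2 + ‖z‖ ^ 2 := by
  unfold asm
  rw [LinearIsometryEquiv.norm_map, EuclideanSpace.norm_sq_eq, Fintype.sum_sum_type,
    EuclideanSpace.norm_sq_eq, EuclideanSpace.norm_sq_eq]
  simp

theorem cov2 (F : E (n + 1) → ℝ≥0∞) (hF : Measurable F) :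
    ∫⁻ x, F x = ∫⁻ u : E m, ∫⁻ z : E k, F (asm b u z) := by
  have h1 := b.measurePreserving_repr_symm.comp (PiLp.volume_preserving_toLp (Fin m ⊕ Fin k))
  have h2 := (volume_measurePreserving_sumPiEquivProdPi (fun _ : Fin m ⊕ Fin k => ℝ)).symm
  have h3 := h1.comp h2
  have h4 := h3.lintegral_comp hF
  rw [← h4, Measure.volume_eq_prod, lintegral_prod _ (by
    exact (hF.comp h3.measurable).aemeasurable)]
  have h5 := (PiLp.volume_preserving_ofLp (Fin m)).lintegral_comp_emb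
    (MeasurableEquiv.toLp 2 (Fin m → ℝ)).symm.measurableEmbedding
    (fun y : Fin m → ℝ => ∫⁻ z : E k, F (b.repr.symm (WithLp.toLp 2 (Sum.elim y z.ofLp))))
  have h6 : ∀ u : E m, (∫⁻ z : E k, F (asm b u z)) =
      (fun y : Fin m → ℝ => ∫⁻ z : E k, F (b.repr.symm (WithLp.toLp 2 (Sum.elim y z.ofLp))))
        u.ofLp := fun u => rfl
  simp_rw [h6]
  rw [h5]
  refine lintegral_congr fun y => ?_
  have h7 := (PiLp.volume_preserving_ofLp (Fin k)).lintegral_comp_emb
    (MeasurableEquiv.toLp 2 (Fin k → ℝ)).symm.measurableEmbedding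
    (fun z : Fin k → ℝ => F (b.repr.symm (WithLp.toLp 2 (Sum.elim y z))))
  rw [h7]
  refine lintegral_congr fun z => ?_
  have h8 : (MeasurableEquiv.sumPiEquivProdPi fun _ : Fin m ⊕ Fin k => ℝ).symm (y, z) =
      Sum.elim y z := by
    ext i
    rcases i with i | i <;> rfl
  simp only [Function.comp, h8]

theorem Phi_cont : Continuous (Phi : E n → E (n + 1)) := by
  unfold Phi
  refine (PiLp.continuous_toLp 2 _).comp ?_
  refine continuous_pi fun i => ?_
  refine Fin.lastCases ?_ (fun j => ?_) i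
  · simp only [Fin.snoc_last]; fun_prop
  · simp only [Fin.snoc_castSucc]; fun_prop

theorem pr_cont : Continuous (pr b) := by
  unfold pr
  refine (PiLp.continuous_toLp 2 _).comp (continuous_pi fun i => ?_)
  fun_prop

theorem qr_cont : Continuous (qr b) := by
  unfold qr
  refine (PiLp.continuous_toLp 2 _).comp (continuous_pi fun i => ?_)
  fun_prop

/-- the two phase maps -/
noncomputable def pp (ξ : E n) : E m := pr b (Phi ξ)
noncomputable def qq (ξ : E n) : E k := qr b (Phi ξ)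

theorem pp_meas : Measurable (pp b : E n → E m) := ((pr_cont b).comp Phi_cont).measurable
theorem qq_meas : Measurable (qq b : E n → E k) := ((qr_cont b).comp Phi_cont).measurable

theorem V_eq (φ : E n → ℂ) (u : E m) (z : E k) :
    V volume (pp b) (qq b) φ u z = Ex φ (asm b u z) := by
  unfold V Ex pp qq
  simp_rw [inner_asm]

/-- the constant of the fibre estimate -/
noncomputable def Kc (n k : ℕ) : ℝ≥0∞ := ENNReal.ofReal (Cg n) * Jk n k

theorem Kc_ne_top (h : k < n) : Kc n k ≠ ∞ :=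
  ENNReal.mul_ne_top ENNReal.ofReal_ne_top (Jk_ne_top n k h)

theorem fib (hmk : m + k = n + 1) (u : E m) :
    ∫⁻ z, ‖V volume (pp b) (qq b) (fun x => ((Gs n x : ℝ) : ℂ)) u z‖ₑ ^ 2 ≤ Kc n k * br m u := by
  have h1 : ∀ z : E k, ‖V volume (pp b) (qq b) (fun x => ((Gs n x : ℝ) : ℂ)) u z‖ₑ ^ 2 ≤
      ENNReal.ofReal (Cg n) *
        ENNReal.ofReal ((1 + (‖u‖ ^ 2 + ‖z‖ ^ 2)) ^ (-((n : ℝ) / 2))) := by
    intro z
    rw [V_eq, ← ENNReal.ofReal_mul (Cg_nonneg n), ← norm_asm b, ← ofReal_norm,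
      ← ENNReal.ofReal_pow (norm_nonneg _)]
    exact ENNReal.ofReal_le_ofReal (Ex_gauss _)
  refine (lintegral_mono h1).trans (le_of_eq ?_)
  rw [lintegral_const_mul _ (by fun_prop), fibre n m k hmk u, Kc, mul_assoc]

theorem upS (hmk : m + k = n + 1) (hm : 1 ≤ m) (S : Set (E m)) (hS : MeasurableSet S) (ε : ℝ)
    (hε : 0 < ε) :
    ∫⁻ ω, ‖V volume (pp b) (qq b) (fun x => ((Gs n x : ℝ) : ℂ)) (ω.2.1 - ω.1) ω.2.2‖ₑ ^ 2
      ∂(nu S S ε : Measure (E m × E m × E k)) ≤
      Kc n k * (Rz m + 1) * (volume S * volume S ^ (1 / (m : ℝ))) := by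
  refine (up volume S ε hε (pp b) (qq b) (pp_meas b) (qq_meas b) _
    (Complex.continuous_ofReal.comp Gs_cont).stronglyMeasurable (fun u => Kc n k * br m u)
    (fib b hmk)).trans ?_
  have h1 : ∀ y : E m, ∫⁻ w in S, Kc n k * br m (w - y) ≤
      Kc n k * ((Rz m + 1) * volume S ^ (1 / (m : ℝ))) := by
    intro y
    have hgm : Measurable fun w : E m => br m (w - y) := (br_meas m).comp (measurable_sub_const y)
    rw [lintegral_const_mul _ hgm]
    exact mul_le_mul' le_rfl (pot_all m hm S hS y)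
  refine (lintegral_mono h1).trans (le_of_eq ?_)
  rw [lintegral_const, Measure.restrict_apply_univ]
  ring

theorem Ex_aem (φ : E n → ℂ) (hφ : AEStronglyMeasurable φ) : Measurable (Ex φ) :=
  Pool.Agent.R412.RT.Ex_meas φ hφ

theorem mono_lim {α : Type*} [MeasurableSpace α] (μ : Measure α) (h : α → ℝ≥0∞)
    (hh : Measurable h) (w : α → ℝ) (hw : Measurable w) (hw0 : ∀ x, 0 ≤ w x) (X : ℝ≥0∞)
    (hX : ∀ ε : ℝ, 0 < ε → ∫⁻ x, h x * ENNReal.ofReal (Real.exp (-ε * w x)) ∂μ ≤ X) :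
    ∫⁻ x, h x ∂μ ≤ X := by
  have h1 : ∀ x, Filter.Tendsto (fun j : ℕ => h x * ENNReal.ofReal
      (Real.exp (-(1 / ((j : ℝ) + 1)) * w x))) Filter.atTop (nhds (h x)) := by
    intro x
    have h2 : Filter.Tendsto (fun j : ℕ => Real.exp (-(1 / ((j : ℝ) + 1)) * w x)) Filter.atTop
        (nhds (Real.exp (-0 * w x))) := by
      refine (Real.continuous_exp.tendsto _).comp ?_
      refine Filter.Tendsto.mul_const _ ?_
      exact (tendsto_one_div_add_atTop_nhds_zero_nat (𝕜 := ℝ)).neg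
    have h3 := (ENNReal.continuous_ofReal.tendsto _).comp h2
    rw [neg_zero, zero_mul, Real.exp_zero, ENNReal.ofReal_one] at h3
    have h4 := ENNReal.Tendsto.const_mul (a := h x) h3 (Or.inl one_ne_zero)
    rw [mul_one] at h4
    exact h4
  have h5 : ∫⁻ x, h x ∂μ = ∫⁻ x, Filter.liminf (fun j : ℕ => h x * ENNReal.ofReal
      (Real.exp (-(1 / ((j : ℝ) + 1)) * w x))) Filter.atTop ∂μ := by
    refine lintegral_congr fun x => ?_
    exact (h1 x).liminf_eq.symm
  rw [h5]
  refine (lintegral_liminf_le fun j => by fun_prop).trans ?_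
  refine Filter.liminf_le_of_le (by isBoundedDefault) ?_
  intro c hc
  obtain ⟨j, hj⟩ := hc.exists
  exact hj.trans (hX _ (by positivity))

/-- the two-set inequality -/
theorem two_set (hmk : m + k = n + 1) (hm : 2 ≤ m) (S A B : Set (E m)) (hAm : MeasurableSet A)
    (hBm : MeasurableSet B) (hSm : MeasurableSet S) (hAB : ∀ a ∈ A, ∀ b ∈ B, b + a ∈ S)
    (hS : volume S ≠ ∞) (hA : volume A ≠ ∞) (φ : E n → ℂ) (hφm : StronglyMeasurable φ)
    (hφ : Integrable φ) (hφG : ∀ᵐ x, ‖φ x‖ ≤ Gs n x) :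
    (∫⁻ x in {x | pr b x ∈ B}, ‖Ex φ x‖ₑ ^ 2) * volume A ≤
      Kc n k * (Rz m + 1) * (volume S * volume S ^ (1 / (m : ℝ))) ^ (1 / 2 : ℝ) *
        (volume A * volume A ^ (1 / (m : ℝ))) ^ (1 / 2 : ℝ) := by
  set K : ℝ≥0∞ := Kc n k * (Rz m + 1) with hK
  set a : ℝ≥0∞ := volume S * volume S ^ (1 / (m : ℝ)) with ha
  set c : ℝ≥0∞ := volume A * volume A ^ (1 / (m : ℝ)) with hc
  have hBp : MeasurableSet {x | pr b x ∈ B} := (pr_cont b).measurable hBm
  have hE := Ex_aem φ hφ.1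
  have hV := V_meas volume (pp b) (qq b) (pp_meas b) (qq_meas b) φ hφm
  -- the regularised inequality
  have h1 : ∀ ε : ℝ, 0 < ε → (∫⁻ u in B, ∫⁻ z, ‖V volume (pp b) (qq b) φ u z‖ₑ ^ 2 *
      ENNReal.ofReal (Real.exp (-ε * ‖z‖ ^ 2))) * volume A ≤
      K * a ^ (1 / 2 : ℝ) * c ^ (1 / 2 : ℝ) := by
    intro ε hε
    have l1 := low volume S A B hAm hBm hSm hAB ε hε (pp b) (qq b) (pp_meas b) (qq_meas b) φ hφm
    have l2 := key volume S A ε hε hS hA (pp b) (qq b) (pp_meas b) (qq_meas b) φ hφ (Gs n) Gs_int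
      Gs_nonneg hφG
    have l3 := upS b hmk (by omega) S hSm ε hε
    have l4 := upS b hmk (by omega) A hAm ε hε
    have l5 : _ ≤ (K * a) * (K * c) := l2.trans (mul_le_mul' l3 l4)
    refine l1.trans ?_
    have l6 := ENNReal.rpow_le_rpow l5 (by norm_num : (0 : ℝ) ≤ 1 / 2)
    have l8 : ∀ t : ℝ≥0∞, (t ^ 2) ^ (1 / 2 : ℝ) = t := by
      intro t
      rw [← ENNReal.rpow_two, ← ENNReal.rpow_mul]
      norm_num
    rw [l8] at l6
    refine l6.trans (le_of_eq ?_)
    rw [ENNReal.mul_rpow_of_nonneg (K * a) (K * c) (by norm_num : (0 : ℝ) ≤ 1 / 2),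
      ENNReal.mul_rpow_of_nonneg K a (by norm_num : (0 : ℝ) ≤ 1 / 2),
      ENNReal.mul_rpow_of_nonneg K c (by norm_num : (0 : ℝ) ≤ 1 / 2)]
    have l7 : K ^ (1 / 2 : ℝ) * K ^ (1 / 2 : ℝ) = K := by
      rw [← ENNReal.rpow_add_of_nonneg _ _ (by norm_num) (by norm_num)]
      norm_num
    calc _ = (K ^ (1 / 2 : ℝ) * K ^ (1 / 2 : ℝ)) * a ^ (1 / 2 : ℝ) * c ^ (1 / 2 : ℝ) := by ring
      _ = _ := by rw [l7]
  -- the integral in coordinates
  have h2 : ∫⁻ x in {x | pr b x ∈ B}, ‖Ex φ x‖ₑ ^ 2 =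
      ∫⁻ w : E m × E k, ‖V volume (pp b) (qq b) φ w.1 w.2‖ₑ ^ 2
        ∂((volume.restrict B).prod volume) := by
    rw [← lintegral_indicator hBp, cov2 b _ ((hE.enorm.pow_const 2).indicator hBp),
      lintegral_prod _ (by exact (hV.enorm.pow_const 2).aemeasurable), ← lintegral_indicator hBm]
    refine lintegral_congr fun u => ?_
    by_cases hu : u ∈ B
    · rw [indicator_of_mem hu]
      refine lintegral_congr fun z => ?_
      have : asm b u z ∈ {x | pr b x ∈ B} := by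
        show pr b (asm b u z) ∈ B
        rw [pr_asm]; exact hu
      rw [indicator_of_mem this, V_eq]
    · rw [indicator_of_notMem hu]
      have : ∀ z, ({x | pr b x ∈ B}.indicator (fun x => ‖Ex φ x‖ₑ ^ 2) (asm b u z)) = 0 := by
        intro z
        have : asm b u z ∉ {x | pr b x ∈ B} := by
          show ¬ (pr b (asm b u z) ∈ B)
          rw [pr_asm]; exact hu
        rw [indicator_of_notMem this]
      simp_rw [this]
      exact lintegral_zero
  rw [h2, mul_comm, ← lintegral_const_mul _ (by exact (hV.enorm.pow_const 2))]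
  refine mono_lim _ _ (by exact (hV.enorm.pow_const 2).const_mul _) (fun w : E m × E k => ‖w.2‖ ^ 2)
    (by fun_prop) (fun w => by positivity) _ ?_
  intro ε hε
  have h3 := h1 ε hε
  refine le_trans (le_of_eq ?_) h3
  have hm1 : Measurable fun w : E m × E k => ‖V volume (pp b) (qq b) φ w.1 w.2‖ₑ ^ 2 *
      ENNReal.ofReal (Real.exp (-ε * ‖w.2‖ ^ 2)) :=
    (hV.enorm.pow_const 2).mul (by fun_prop)
  have h4 := lintegral_prod (μ := volume.restrict B) (ν := (volume : Measure (E k))) _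
    hm1.aemeasurable
  simp only at h4
  rw [← h4, mul_comm, ← lintegral_const_mul _ hm1]
  refine lintegral_congr fun w => ?_
  ring

end Pool.Agent.N248.SD
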