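import Mathlib
import Pool.Agent.N248.SD.F
set_option autoImplicit false

/-! The convolution inequality for finite measures, and the Riesz energy of a function. -/

namespace Pool.Agent.N248.SD

open MeasureTheory Complex Set Metric
open scoped ENNReal RealInnerProductSpace ComplexConjugate Pointwise
open Pool.Agent.R412.RT (ee ee_norm ee_cont ee_meas ee_add ee_conj Phi Ex inner_eq)

section conv

variable {X : Type*} [MeasurableSpace X] {N : ℕ}

/-- the operator -/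
noncomputable def W (μ : Measure X) (p : X → E N) (φ : X → ℂ) (u : E N) : ℂ :=
  ∫ x, ee ⟪p x, u⟫ * φ x ∂μ

/-- the kernel -/
noncomputable def dd (p : X → E N) (ω : E N × E N) (x : X) : ℂ := ee ⟪p x, ω.2 - ω.1⟫

theorem dd_meas (p : X → E N) (hp : Measurable p) : Measurable (Function.uncurry (dd p)) := by
  unfold dd Function.uncurry
  exact ee_meas.comp (Measurable.inner (hp.comp measurable_snd)
      ((measurable_snd.comp measurable_fst).sub (measurable_fst.comp measurable_fst)))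

/-- the Fourier transform of a measure -/
noncomputable def fm (α : Measure (E N)) (η : E N) : ℂ := ∫ w, ee ⟪η, w⟫ ∂α

theorem Mk_dd (α β : Measure (E N)) [IsFiniteMeasure α] [IsFiniteMeasure β] (p : X → E N)
    (x : X × X) :
    Mk (α.prod β) (dd p) x = conj (fm α (p x.1 - p x.2)) * fm β (p x.1 - p x.2) := by
  unfold Mk
  have h1 : ∀ ω : E N × E N, dd p ω x.1 * conj (dd p ω x.2) =
      conj (ee ⟪p x.1 - p x.2, ω.1⟫) * ee ⟪p x.1 - p x.2, ω.2⟫ := by
    intro ω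
    unfold dd
    rw [ee_conj, ee_conj, ← ee_add, ← ee_add]
    congr 1
    simp only [inner_sub_left, inner_sub_right]
    ring
  simp_rw [h1]
  rw [integral_prod_mul (fun y : E N => conj (ee ⟪p x.1 - p x.2, y⟫))
    (fun w : E N => ee ⟪p x.1 - p x.2, w⟫)]
  congr 1
  unfold fm
  rw [← integral_conj]

theorem conv (μ : Measure X) [SFinite μ] (α β : Measure (E N)) [IsFiniteMeasure α]
    [IsFiniteMeasure β] (p : X → E N) (hp : Measurable p)
    (φ : X → ℂ) (hφ : Integrable φ μ) (G : X → ℝ) (hG : Integrable G μ) (hG0 : ∀ x, 0 ≤ G x)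
    (hφG : ∀ᵐ x ∂μ, ‖φ x‖ ≤ G x) :
    (∫⁻ ω, ‖W μ p φ (ω.2 - ω.1)‖ₑ ^ 2 ∂(α.prod β)) ^ 2 ≤
      (∫⁻ ω, ‖W μ p (fun x => (G x : ℂ)) (ω.2 - ω.1)‖ₑ ^ 2 ∂(β.prod β)) *
      ∫⁻ ω, ‖W μ p (fun x => (G x : ℂ)) (ω.2 - ω.1)‖ₑ ^ 2 ∂(α.prod α) := by
  have hc := dd_meas p hp
  have hn : ∀ (ω : E N × E N) (x : X), ‖dd p ω x‖ ≤ 1 := fun ω x => (ee_norm _).le
  have hM : ∀ (T : Measure (E N)) [IsFiniteMeasure T], ∀ z : X × X, Mk (T.prod T) (dd p) z =
      ((‖fm T (p z.1 - p z.2)‖ ^ 2 : ℝ) : ℂ) := by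
    intro T _ z
    rw [Mk_dd T T, ← Complex.normSq_eq_conj_mul_self, Complex.normSq_eq_norm_sq]
  exact schwarz μ (α.prod β) (β.prod β) (α.prod α) (dd p) (dd p) (dd p) hc hc hc hn hn hn
    (fun z => ‖fm β (p z.1 - p z.2)‖ ^ 2) (fun z => ‖fm α (p z.1 - p z.2)‖ ^ 2)
    (fun z => by positivity) (fun z => by positivity) (hM β) (hM α)
    (fun z => by
      rw [Mk_dd α β, norm_mul, Complex.norm_conj]
      apply le_of_eq
      ring)
    φ hφ G hG hG0 hφG

end conv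

/-- the energy of a function with respect to the bracket -/
noncomputable def En (N : ℕ) (h : EuclideanSpace ℝ (Fin N) → ℝ≥0∞) : ℝ≥0∞ :=
  ∫⁻ y, ∫⁻ w, h y * h w * br N (w - y)

theorem near (N : ℕ) (hN : 1 ≤ N) (h : EuclideanSpace ℝ (Fin N) → ℝ≥0∞) (hh : Measurable h)
    (k : EuclideanSpace ℝ (Fin N) → ℝ≥0∞) (hk : Measurable k) :
    ∫⁻ y, ∫⁻ w, h y * h w * k (w - y) ≤ (∫⁻ v, k v) * ∫⁻ y, h y ^ 2 := by
  -- substitute w = y + v
  have h1 : ∀ y, ∫⁻ w, h y * h w * k (w - y) = ∫⁻ v, h y * h (y + v) * k v := by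
    intro y
    rw [← lintegral_add_left_eq_self _ y]
    simp
  simp_rw [h1]
  rw [lintegral_lintegral_swap (by fun_prop), ← lintegral_mul_const _ hk]
  refine lintegral_mono fun v => ?_
  have h2 : ∀ y, h y * h (y + v) * k v = k v * (h y * h (y + v)) := fun y => by ring
  simp_rw [h2]
  rw [lintegral_const_mul _ (by fun_prop)]
  refine mul_le_mul' le_rfl ?_
  have hcs := ENNReal.lintegral_mul_le_Lp_mul_Lq volume Real.HolderConjugate.two_two
    (f := h) (g := fun y => h (y + v)) hh.aemeasurable (by fun_prop)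
  refine hcs.trans (le_of_eq ?_)
  have h3 : ∫⁻ y, h (y + v) ^ (2 : ℝ) = ∫⁻ y, h y ^ (2 : ℝ) :=
    lintegral_add_right_eq_self (fun y => h y ^ (2 : ℝ)) v
  rw [h3, ← ENNReal.rpow_add_of_nonneg _ _ (by norm_num) (by norm_num)]
  norm_num

theorem riesz (N : ℕ) (hN : 1 ≤ N) (h : EuclideanSpace ℝ (Fin N) → ℝ≥0∞) (hh : Measurable h)
    (h1 : ∫⁻ y, h y ≠ ∞) (h2 : ∫⁻ y, h y ^ 2 ≠ ∞) :
    En N h ≤ (Rz N + 1) * ((∫⁻ y, h y ^ 2) ^ (1 - 1 / (N : ℝ)) *
      ((∫⁻ y, h y) ^ 2) ^ (1 / (N : ℝ))) := by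
  have hN' : (1 : ℝ) ≤ N := by exact_mod_cast hN
  rcases eq_or_ne (∫⁻ y, h y) 0 with h0 | h0
  · have hz : ∀ᵐ y, h y = 0 := by
      have := (lintegral_eq_zero_iff hh).1 h0
      filter_upwards [this] with y hy using hy
    have : En N h = 0 := by
      unfold En
      have e : ∀ᵐ y : EuclideanSpace ℝ (Fin N), ∫⁻ w, h y * h w * br N (w - y) = 0 := by
        filter_upwards [hz] with y hy
        simp [hy]
      rw [lintegral_congr_ae e, lintegral_zero]
    rw [this]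
    exact zero_le
  have h20 : ∫⁻ y, h y ^ 2 ≠ 0 := by
    intro h3
    apply h0
    have := (lintegral_eq_zero_iff (hh.pow_const 2)).1 h3
    rw [lintegral_eq_zero_iff hh]
    filter_upwards [this] with y hy
    simpa using hy
  set a : ℝ := (∫⁻ y, h y).toReal with ha
  set b : ℝ := (∫⁻ y, h y ^ 2).toReal with hb
  have ha0 : 0 < a := ENNReal.toReal_pos h0 h1
  have hb0 : 0 < b := ENNReal.toReal_pos h20 h2
  have hA : ∫⁻ y, h y = ENNReal.ofReal a := (ENNReal.ofReal_toReal h1).symm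
  have hB : ∫⁻ y, h y ^ 2 = ENNReal.ofReal b := (ENNReal.ofReal_toReal h2).symm
  set ρ : ℝ := (a ^ 2 / b) ^ (1 / (N : ℝ)) with hρ
  have hρ0 : 0 < ρ := by positivity
  -- split the kernel
  set k₁ : EuclideanSpace ℝ (Fin N) → ℝ≥0∞ := (ball 0 ρ).indicator
    fun v => ENNReal.ofReal (‖v‖ ^ (-((N : ℝ) - 1))) with hk₁
  have hk₁m : Measurable k₁ :=
    ((measurable_norm.pow_const _).ennreal_ofReal).indicator measurableSet_ball
  have hsplit : ∀ v : EuclideanSpace ℝ (Fin N), v ≠ 0 →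
      br N v ≤ k₁ v + ENNReal.ofReal (ρ ^ (-((N : ℝ) - 1))) := by
    intro v hv
    by_cases hvρ : v ∈ ball (0 : EuclideanSpace ℝ (Fin N)) ρ
    · rw [hk₁, indicator_of_mem hvρ]
      exact (br_le N hN v hv).trans le_self_add
    · refine (br_le N hN v hv).trans (le_add_left ?_)
      refine ENNReal.ofReal_le_ofReal ?_
      refine Real.rpow_le_rpow_of_nonpos hρ0 ?_ (by linarith)
      simpa using hvρ
  have hne : Nonempty (Fin N) := ⟨⟨0, hN⟩⟩
  have h4 : En N h ≤ ∫⁻ y, ∫⁻ w, (h y * h w * k₁ (w - y) +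
      h y * h w * ENNReal.ofReal (ρ ^ (-((N : ℝ) - 1)))) := by
    unfold En
    refine lintegral_mono fun y => lintegral_mono_ae ?_
    have : ∀ᵐ w : EuclideanSpace ℝ (Fin N), w ≠ y := by
      rw [ae_iff]
      simp
    filter_upwards [this] with w hw
    rw [← mul_add]
    exact mul_le_mul' le_rfl (hsplit _ (sub_ne_zero.2 hw))
  refine h4.trans ?_
  have h5 : ∀ y, ∫⁻ w, (h y * h w * k₁ (w - y) +
      h y * h w * ENNReal.ofReal (ρ ^ (-((N : ℝ) - 1)))) =
      (∫⁻ w, h y * h w * k₁ (w - y)) +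
        ∫⁻ w, h y * h w * ENNReal.ofReal (ρ ^ (-((N : ℝ) - 1))) := by
    intro y
    exact lintegral_add_left (by fun_prop) _
  simp_rw [h5]
  rw [lintegral_add_left (by
    have : Measurable (Function.uncurry fun (y w : EuclideanSpace ℝ (Fin N)) =>
        h y * h w * k₁ (w - y)) := by
      unfold Function.uncurry
      fun_prop
    exact this.lintegral_prod_right')]
  have h6 := near N hN h hh k₁ hk₁m
  have h7 : ∫⁻ v, k₁ v = ENNReal.ofReal ρ * Rz N := by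
    rw [hk₁, lintegral_indicator measurableSet_ball]
    exact Rz_scale N hN ρ hρ0
  rw [h7] at h6
  have h8 : ∫⁻ y, ∫⁻ w, h y * h w * ENNReal.ofReal (ρ ^ (-((N : ℝ) - 1))) =
      (∫⁻ y, h y) ^ 2 * ENNReal.ofReal (ρ ^ (-((N : ℝ) - 1))) := by
    have : ∀ y, ∫⁻ w, h y * h w * ENNReal.ofReal (ρ ^ (-((N : ℝ) - 1))) =
        h y * ((∫⁻ w, h w) * ENNReal.ofReal (ρ ^ (-((N : ℝ) - 1)))) := by
      intro y
      rw [lintegral_mul_const _ (by fun_prop), lintegral_const_mul _ hh]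
      ring
    simp_rw [this]
    rw [lintegral_mul_const _ hh]
    ring
  rw [h8]
  refine (add_le_add_left h6 _).trans ?_
  rw [hA, hB, ← ENNReal.ofReal_pow ha0.le, ENNReal.ofReal_rpow_of_pos hb0,
    ENNReal.ofReal_rpow_of_pos (by positivity), ← ENNReal.ofReal_mul (by positivity),
    ← ENNReal.ofReal_mul (by positivity)]
  have e1 : ρ * b = b ^ (1 - 1 / (N : ℝ)) * (a ^ 2) ^ (1 / (N : ℝ)) := by
    rw [hρ, Real.div_rpow (by positivity) hb0.le, Real.rpow_sub hb0, Real.rpow_one]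
    field_simp
  have e2 : a ^ 2 * ρ ^ (-((N : ℝ) - 1)) = b ^ (1 - 1 / (N : ℝ)) * (a ^ 2) ^ (1 / (N : ℝ)) := by
    have hN0 : (N : ℝ) ≠ 0 := by positivity
    rw [hρ, ← Real.rpow_mul (by positivity)]
    have : 1 / (N : ℝ) * (-((N : ℝ) - 1)) = 1 / (N : ℝ) - 1 := by field_simp; ring
    rw [this, Real.div_rpow (by positivity) hb0.le]
    have f1 : (a ^ 2) ^ (1 / (N : ℝ) - 1) = (a ^ 2) ^ (1 / (N : ℝ)) / a ^ 2 := by
      rw [Real.rpow_sub (by positivity), Real.rpow_one]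
    have f2 : b ^ (1 / (N : ℝ) - 1) = (b ^ (1 - 1 / (N : ℝ)))⁻¹ := by
      rw [← Real.rpow_neg hb0.le]
      congr 1
      ring
    rw [f1, f2]
    field_simp
  rw [e2]
  have e3 : ENNReal.ofReal ρ * Rz N * ENNReal.ofReal b =
      Rz N * ENNReal.ofReal (b ^ (1 - 1 / (N : ℝ)) * (a ^ 2) ^ (1 / (N : ℝ))) := by
    rw [← e1, ENNReal.ofReal_mul hρ0.le]
    ring
  rw [e3, add_mul, one_mul]

end Pool.Agent.N248.SD
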