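import Mathlib
import Pool.Agent.N248.SD.G
set_option autoImplicit false

/-! The energy inequality. -/

namespace Pool.Agent.N248.SD

open MeasureTheory Complex Set Metric
open scoped ENNReal RealInnerProductSpace ComplexConjugate Pointwise
open Pool.Agent.R412.RT (ee ee_norm ee_cont ee_meas ee_add ee_conj Phi Ex inner_eq)

/-- the representation function of the sums `a + b` -/
noncomputable def rep {N : ℕ} (A B : Set (EuclideanSpace ℝ (Fin N)))
    (w : EuclideanSpace ℝ (Fin N)) : ℝ≥0∞ := volume {y | y ∈ A ∧ w - y ∈ B}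

section

variable {N : ℕ} (A B : Set (EuclideanSpace ℝ (Fin N)))

theorem rep_eq (hA : MeasurableSet A) (hB : MeasurableSet B) (w : EuclideanSpace ℝ (Fin N)) :
    rep A B w = ∫⁻ y, A.indicator 1 y * B.indicator (1 : EuclideanSpace ℝ (Fin N) → ℝ≥0∞) (w - y) := by
  unfold rep
  have hm : MeasurableSet {y | y ∈ A ∧ w - y ∈ B} :=
    hA.inter (hB.preimage (measurable_const.sub measurable_id))
  rw [← lintegral_indicator_one hm]
  refine lintegral_congr fun y => ?_
  by_cases h1 : y ∈ A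
  · by_cases h2 : w - y ∈ B
    · rw [indicator_of_mem (show y ∈ {y | y ∈ A ∧ w - y ∈ B} from ⟨h1, h2⟩),
        indicator_of_mem h1, indicator_of_mem h2]
      simp
    · rw [indicator_of_notMem (show y ∉ {y | y ∈ A ∧ w - y ∈ B} from fun h => h2 h.2),
        indicator_of_notMem h2, mul_zero]
  · rw [indicator_of_notMem (show y ∉ {y | y ∈ A ∧ w - y ∈ B} from fun h => h1 h.1),
        indicator_of_notMem h1, zero_mul]

theorem rep_meas (hA : MeasurableSet A) (hB : MeasurableSet B) : Measurable (rep A B) := by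
  have : rep A B = fun w => ∫⁻ y, A.indicator 1 y *
      B.indicator (1 : EuclideanSpace ℝ (Fin N) → ℝ≥0∞) (w - y) :=
    funext fun w => rep_eq A B hA hB w
  rw [this]
  have hAm : Measurable (A.indicator (1 : EuclideanSpace ℝ (Fin N) → ℝ≥0∞)) :=
    measurable_one.indicator hA
  have hBm : Measurable (B.indicator (1 : EuclideanSpace ℝ (Fin N) → ℝ≥0∞)) :=
    measurable_one.indicator hB
  have hm : Measurable fun p : EuclideanSpace ℝ (Fin N) × EuclideanSpace ℝ (Fin N) =>
      A.indicator (1 : EuclideanSpace ℝ (Fin N) → ℝ≥0∞) p.2 *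
        B.indicator (1 : EuclideanSpace ℝ (Fin N) → ℝ≥0∞) (p.1 - p.2) :=
    (hAm.comp measurable_snd).mul (hBm.comp (measurable_fst.sub measurable_snd))
  exact hm.lintegral_prod_right'

theorem rep_le (w : EuclideanSpace ℝ (Fin N)) : rep A B w ≤ volume A :=
  measure_mono fun _ h => h.1

theorem rep_int (hA : MeasurableSet A) (hB : MeasurableSet B) :
    ∫⁻ w, rep A B w = volume A * volume B := by
  simp_rw [rep_eq A B hA hB]
  have hAm : Measurable (A.indicator (1 : EuclideanSpace ℝ (Fin N) → ℝ≥0∞)) :=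
    measurable_one.indicator hA
  have hBm : Measurable (B.indicator (1 : EuclideanSpace ℝ (Fin N) → ℝ≥0∞)) :=
    measurable_one.indicator hB
  rw [lintegral_lintegral_swap (by
    exact ((hAm.comp measurable_snd).mul
      (hBm.comp (measurable_fst.sub measurable_snd))).aemeasurable)]
  have : ∀ y, ∫⁻ w, A.indicator (1 : EuclideanSpace ℝ (Fin N) → ℝ≥0∞) y *
      B.indicator (1 : EuclideanSpace ℝ (Fin N) → ℝ≥0∞) (w - y) =
      A.indicator (1 : EuclideanSpace ℝ (Fin N) → ℝ≥0∞) y * volume B := by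
    intro y
    rw [lintegral_const_mul _ (by fun_prop)]
    congr 1
    rw [lintegral_sub_right_eq_self, lintegral_indicator_one hB]
  simp_rw [this]
  rw [lintegral_mul_const _ hAm, lintegral_indicator_one hA]

end

theorem dbl {N : ℕ} (g h k : EuclideanSpace ℝ (Fin N) → ℝ≥0∞) (hg : Measurable g)
    (hh : Measurable h) (hk : Measurable k) [SFinite ((volume : Measure (EuclideanSpace ℝ (Fin N))).withDensity g)]
    [SFinite ((volume : Measure (EuclideanSpace ℝ (Fin N))).withDensity h)] :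
    ∫⁻ ω, k (ω.2 - ω.1) ∂(((volume : Measure (EuclideanSpace ℝ (Fin N))).withDensity g).prod
      ((volume : Measure (EuclideanSpace ℝ (Fin N))).withDensity h)) =
        ∫⁻ y, ∫⁻ w, g y * h w * k (w - y) := by
  have hk2 : Measurable fun ω : EuclideanSpace ℝ (Fin N) × EuclideanSpace ℝ (Fin N) =>
      k (ω.2 - ω.1) := hk.comp (measurable_snd.sub measurable_fst)
  rw [lintegral_prod _ hk2.aemeasurable,
    lintegral_withDensity_eq_lintegral_mul _ hg hk2.lintegral_prod_right']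
  refine lintegral_congr fun y => ?_
  simp only [Pi.mul_apply]
  rw [lintegral_withDensity_eq_lintegral_mul _ hh (by fun_prop), ← lintegral_const_mul _ (by fun_prop)]
  refine lintegral_congr fun w => ?_
  simp only [Pi.mul_apply]
  ring

theorem elow {N : ℕ} (A B : Set (EuclideanSpace ℝ (Fin N))) (hA : MeasurableSet A)
    (hB : MeasurableSet B) (k : EuclideanSpace ℝ (Fin N) → ℝ≥0∞) (hk : Measurable k) (l : ℝ≥0∞)
    (hl : ∀ x ∈ B, l ≤ k x) :
    l * ∫⁻ w, rep A B w ^ 2 ≤ ∫⁻ y, ∫⁻ w, A.indicator 1 y * rep A B w * k (w - y) := by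
  have hAm : Measurable (A.indicator (1 : EuclideanSpace ℝ (Fin N) → ℝ≥0∞)) :=
    measurable_one.indicator hA
  have hBm : Measurable (B.indicator (1 : EuclideanSpace ℝ (Fin N) → ℝ≥0∞)) :=
    measurable_one.indicator hB
  have hrm := rep_meas A B hA hB
  have hm : Measurable (Function.uncurry fun y w : EuclideanSpace ℝ (Fin N) =>
      A.indicator (1 : EuclideanSpace ℝ (Fin N) → ℝ≥0∞) y * rep A B w * k (w - y)) :=
    ((hAm.comp measurable_fst).mul (hrm.comp measurable_snd)).mul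
      (hk.comp (measurable_snd.sub measurable_fst))
  rw [lintegral_lintegral_swap hm.aemeasurable, ← lintegral_const_mul _ (hrm.pow_const 2)]
  refine lintegral_mono fun w => ?_
  have h1 : l * rep A B w ^ 2 = ∫⁻ y, l * (rep A B w * (A.indicator 1 y *
      B.indicator (1 : EuclideanSpace ℝ (Fin N) → ℝ≥0∞) (w - y))) := by
    rw [lintegral_const_mul _ (by fun_prop), lintegral_const_mul _ (by fun_prop),
      ← rep_eq A B hA hB w]
    ring
  rw [h1]
  refine lintegral_mono fun y => ?_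
  by_cases h2 : w - y ∈ B
  · rw [indicator_of_mem h2, Pi.one_apply, mul_one]
    calc l * (rep A B w * A.indicator 1 y) = A.indicator 1 y * rep A B w * l := by ring
      _ ≤ _ := mul_le_mul' le_rfl (hl _ h2)
  · rw [indicator_of_notMem h2, mul_zero, mul_zero, mul_zero]
    exact zero_le

theorem eup {N : ℕ} (h k : EuclideanSpace ℝ (Fin N) → ℝ≥0∞) (hh : Measurable h) (c : ℝ≥0∞)
    (hk : ∀ x, k x ≤ c * br N x) :
    ∫⁻ y, ∫⁻ w, h y * h w * k (w - y) ≤ c * En N h := by
  unfold En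
  have hbm := br_meas N
  have hm : Measurable (Function.uncurry fun y w : EuclideanSpace ℝ (Fin N) =>
      h y * h w * br N (w - y)) :=
    ((hh.comp measurable_fst).mul (hh.comp measurable_snd)).mul
      (hbm.comp (measurable_snd.sub measurable_fst))
  have hm2 : Measurable fun y : EuclideanSpace ℝ (Fin N) => ∫⁻ w, h y * h w * br N (w - y) :=
    hm.lintegral_prod_right'
  rw [← lintegral_const_mul _ hm2]
  refine lintegral_mono fun y => ?_
  rw [← lintegral_const_mul _ (by fun_prop)]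
  refine lintegral_mono fun w => ?_
  refine (mul_le_mul' le_rfl (hk _)).trans (le_of_eq ?_)
  ring

theorem energy {n : ℕ} (A B : Set (EuclideanSpace ℝ (Fin (n + 1)))) (hA : MeasurableSet A)
    (hB : MeasurableSet B) (hAf : volume A ≠ ∞) (hBf : volume B ≠ ∞)
    (φ : EuclideanSpace ℝ (Fin n) → ℂ) (hφ : Integrable φ) (hφG : ∀ᵐ ξ, ‖φ ξ‖ ≤ Gs n ξ)
    (l : ℝ≥0∞) (hl : ∀ x ∈ B, l ≤ ‖Ex φ x‖ₑ ^ 2) :
    (l * ∫⁻ w, rep A B w ^ 2) ^ 2 ≤
      (ENNReal.ofReal (Cg n) * En (n + 1) (rep A B)) *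
        (ENNReal.ofReal (Cg n) * En (n + 1) (A.indicator 1)) := by
  have hAm : Measurable (A.indicator (1 : EuclideanSpace ℝ (Fin (n + 1)) → ℝ≥0∞)) :=
    measurable_one.indicator hA
  have hrm := rep_meas A B hA hB
  have hf1 : IsFiniteMeasure ((volume : Measure (EuclideanSpace ℝ (Fin (n + 1)))).withDensity
      (A.indicator 1)) := isFiniteMeasure_withDensity (by
    rw [lintegral_indicator_one hA]; exact hAf)
  have hf2 : IsFiniteMeasure ((volume : Measure (EuclideanSpace ℝ (Fin (n + 1)))).withDensity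
      (rep A B)) := isFiniteMeasure_withDensity (by
    rw [rep_int A B hA hB]; exact ENNReal.mul_ne_top hAf hBf)
  have hPm : Measurable (Phi (n := n)) := by
    unfold Phi; fun_prop
  have hEm : Measurable fun x => ‖Ex φ x‖ₑ ^ 2 := (Pool.Agent.R412.RT.Ex_meas φ hφ.1).enorm.pow_const 2
  have hGm : Measurable fun x => ‖Ex (fun ξ => (Gs n ξ : ℂ)) x‖ₑ ^ 2 :=
    (Pool.Agent.R412.RT.Ex_meas _ (Gs_int.ofReal.1)).enorm.pow_const 2
  have hc := conv (volume : Measure (EuclideanSpace ℝ (Fin n)))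
    ((volume : Measure (EuclideanSpace ℝ (Fin (n + 1)))).withDensity (A.indicator 1))
    ((volume : Measure (EuclideanSpace ℝ (Fin (n + 1)))).withDensity (rep A B))
    Phi hPm φ hφ (Gs n) Gs_int Gs_nonneg hφG
  have hW : ∀ (ψ : EuclideanSpace ℝ (Fin n) → ℂ) u,
      W (volume : Measure (EuclideanSpace ℝ (Fin n))) Phi ψ u = Ex ψ u := fun ψ u => rfl
  simp_rw [hW] at hc
  have e1 := dbl (A.indicator 1) (rep A B) _ hAm hrm hEm
  have e2 := dbl (rep A B) (rep A B) _ hrm hrm hGm
  have e3 := dbl (A.indicator 1) (A.indicator 1) _ hAm hAm hGm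
  rw [e1, e2, e3] at hc
  have hkb : ∀ x : EuclideanSpace ℝ (Fin (n + 1)), ‖Ex (fun ξ => (Gs n ξ : ℂ)) x‖ₑ ^ 2 ≤
      ENNReal.ofReal (Cg n) * br (n + 1) x := by
    intro x
    have h4 := Ex_gauss (n := n) x
    rw [← ofReal_norm, ← ENNReal.ofReal_pow (norm_nonneg _)]
    unfold br
    rw [← ENNReal.ofReal_mul (Cg_nonneg n)]
    refine ENNReal.ofReal_le_ofReal ?_
    have e : (((n + 1 : ℕ) : ℝ) - 1) / 2 = (n : ℝ) / 2 := by push_cast; ring
    rw [e]
    exact h4
  refine le_trans (pow_le_pow_left' (elow A B hA hB _ hEm l hl) 2) (hc.trans (mul_le_mul' ?_ ?_))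
  · exact eup _ _ hrm _ hkb
  · exact eup _ _ hAm _ hkb

/-- the energy inequality, normalised -/
theorem energy' {n : ℕ} (A B : Set (EuclideanSpace ℝ (Fin (n + 1)))) (hA : MeasurableSet A)
    (hB : MeasurableSet B) (hAf : volume A ≠ ∞) (hBf : volume B ≠ ∞)
    (φ : EuclideanSpace ℝ (Fin n) → ℂ) (hφ : Integrable φ) (hφG : ∀ᵐ ξ, ‖φ ξ‖ ≤ Gs n ξ)
    (l : ℝ≥0∞) (hl : ∀ x ∈ B, l ≤ ‖Ex φ x‖ₑ ^ 2) :
    l ^ 2 * (∫⁻ w, rep A B w ^ 2) ^ (1 + 1 / ((n : ℝ) + 1)) ≤
      (ENNReal.ofReal (Cg n) * (Rz (n + 1) + 1)) ^ 2 * (volume A ^ (1 + 3 / ((n : ℝ) + 1)) *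
        volume B ^ (2 / ((n : ℝ) + 1))) := by
  set N : ℝ := (n : ℝ) + 1 with hN
  have hN0 : 0 < N := by positivity
  have hN1 : 1 ≤ N := by
    have : (0 : ℝ) ≤ n := Nat.cast_nonneg n
    linarith
  have hNc : ((n + 1 : ℕ) : ℝ) = N := by push_cast; rfl
  have hAm : Measurable (A.indicator (1 : EuclideanSpace ℝ (Fin (n + 1)) → ℝ≥0∞)) :=
    measurable_one.indicator hA
  have hrm := rep_meas A B hA hB
  set e : ℝ≥0∞ := ∫⁻ w, rep A B w ^ 2 with he
  set a : ℝ≥0∞ := volume A with ha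
  set b : ℝ≥0∞ := volume B with hb
  have hef : e ≠ ∞ := by
    have : e ≤ a * (a * b) := by
      rw [he]
      calc ∫⁻ w, rep A B w ^ 2 ≤ ∫⁻ w, a * rep A B w := by
            refine lintegral_mono fun w => ?_
            rw [sq]
            exact mul_le_mul' (rep_le A B w) le_rfl
        _ = a * (a * b) := by rw [lintegral_const_mul _ hrm, rep_int A B hA hB]
    exact ne_top_of_le_ne_top (ENNReal.mul_ne_top hAf (ENNReal.mul_ne_top hAf hBf)) this
  rcases eq_or_ne e 0 with he0 | he0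
  · rw [he0, ENNReal.zero_rpow_of_pos (by positivity), mul_zero]
    exact zero_le
  have h0 := energy A B hA hB hAf hBf φ hφ hφG l hl
  have h1 := riesz (n + 1) (by omega) (rep A B) hrm (by
    rw [rep_int A B hA hB]; exact ENNReal.mul_ne_top hAf hBf) hef
  have hA2 : ∫⁻ y, A.indicator (1 : EuclideanSpace ℝ (Fin (n + 1)) → ℝ≥0∞) y ^ 2 = a := by
    rw [ha, ← lintegral_indicator_one hA]
    refine lintegral_congr fun y => ?_
    by_cases hy : y ∈ A
    · rw [indicator_of_mem hy]; simp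
    · rw [indicator_of_notMem hy]; simp
  have hA1 : ∫⁻ y, A.indicator (1 : EuclideanSpace ℝ (Fin (n + 1)) → ℝ≥0∞) y = a := by
    rw [lintegral_indicator_one hA]
  have h2 := riesz (n + 1) (by omega) (A.indicator 1) hAm (by rw [hA1]; exact hAf)
    (by rw [hA2]; exact hAf)
  rw [rep_int A B hA hB, hNc] at h1
  rw [hA1, hA2, hNc] at h2
  set K : ℝ≥0∞ := ENNReal.ofReal (Cg n) * (Rz (n + 1) + 1) with hK
  -- split off the power
  have hX0 : e ^ (1 - 1 / N) ≠ 0 := by
    rw [Ne, ENNReal.rpow_eq_zero_iff]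
    push Not
    exact ⟨fun h => absurd h he0, fun h => absurd h hef⟩
  have hXt : e ^ (1 - 1 / N) ≠ ∞ := ENNReal.rpow_ne_top_of_nonneg (by
    have : 1 / N ≤ 1 := by rw [div_le_one hN0]; exact hN1
    linarith) hef
  rw [← ENNReal.mul_le_mul_iff_left hX0 hXt]
  have hsum : e ^ (1 + 1 / N) * e ^ (1 - 1 / N) = e ^ 2 := by
    rw [← ENNReal.rpow_add _ _ he0 hef, ← ENNReal.rpow_natCast]
    congr 1
    push_cast
    ring
  calc l ^ 2 * e ^ (1 + 1 / N) * e ^ (1 - 1 / N) = (l * e) ^ 2 := by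
        rw [mul_assoc, hsum, mul_pow]
    _ ≤ (ENNReal.ofReal (Cg n) * En (n + 1) (rep A B)) *
        (ENNReal.ofReal (Cg n) * En (n + 1) (A.indicator 1)) := h0
    _ ≤ (ENNReal.ofReal (Cg n) * ((Rz (n + 1) + 1) * (e ^ (1 - 1 / N) *
          ((a * b) ^ 2) ^ (1 / N)))) *
        (ENNReal.ofReal (Cg n) * ((Rz (n + 1) + 1) * (a ^ (1 - 1 / N) * (a ^ 2) ^ (1 / N)))) :=
        mul_le_mul' (mul_le_mul' le_rfl h1) (mul_le_mul' le_rfl h2)
    _ = K ^ 2 * (((a * b) ^ 2) ^ (1 / N) * (a ^ (1 - 1 / N) * (a ^ 2) ^ (1 / N))) *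
          e ^ (1 - 1 / N) := by rw [hK]; ring
    _ = K ^ 2 * (a ^ (1 + 3 / N) * b ^ (2 / N)) * e ^ (1 - 1 / N) := by
        congr 2
        have e1 : ((a * b) ^ 2) ^ (1 / N) = a ^ (2 / N) * b ^ (2 / N) := by
          rw [mul_pow, ENNReal.mul_rpow_of_nonneg _ _ (by positivity), ← ENNReal.rpow_natCast,
            ← ENNReal.rpow_natCast, ← ENNReal.rpow_mul, ← ENNReal.rpow_mul]
          congr 2
          · push_cast; ring
          · push_cast; ring
        have e2 : (a ^ 2) ^ (1 / N) = a ^ (2 / N) := by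
          rw [← ENNReal.rpow_natCast, ← ENNReal.rpow_mul]
          congr 1
          push_cast; ring
        have e3 : 0 ≤ 1 - 1 / N := by
          have : 1 / N ≤ 1 := by rw [div_le_one hN0]; exact hN1
          linarith
        rw [e1, e2]
        have e4 : a ^ (1 + 3 / N) = a ^ (2 / N) * (a ^ (1 - 1 / N) * a ^ (2 / N)) := by
          rw [← ENNReal.rpow_add_of_nonneg _ _ e3 (by positivity),
            ← ENNReal.rpow_add_of_nonneg _ _ (by positivity) (by positivity)]
          congr 1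
          field_simp
          ring
        rw [e4]
        ring

end Pool.Agent.N248.SD
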